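import Mathlib

/-!
# Random sparse families of cells

For a random subset `Q` of a finite set of unit cells of the plane let `sel Q` be the cells of `Q`
which touch no other cell of `Q`.  If the `3 × 3` blocks around the cells of `T` are disjoint, at
least the proportion `t / |T|` of the cells of `T` belongs to `sel Q`, but for an exponentially
small proportion of the `Q`.
-/

set_option autoImplicit false

namespace Pool.Agent.T6.H92.SP

open Finset
open scoped Classical

noncomputable section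

/-- two cells have a common vertex -/
def touch (c d : ℤ × ℤ) : Prop := |c.1 - d.1| ≤ 1 ∧ |c.2 - d.2| ≤ 1

theorem touch_comm (c d : ℤ × ℤ) : touch c d ↔ touch d c := by
  unfold touch
  rw [abs_sub_comm c.1, abs_sub_comm c.2]

/-- the cells of `Q` which touch no other cell of `Q` -/
def sel (Q : Finset (ℤ × ℤ)) : Finset (ℤ × ℤ) := Q.filter (fun c => ∀ d ∈ Q, d ≠ c → ¬ touch c d)

/-- the block of the nine cells touching `c` -/
def blk (c : ℤ × ℤ) : Finset (ℤ × ℤ) := Icc (c.1 - 1) (c.1 + 1) ×ˢ Icc (c.2 - 1) (c.2 + 1)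

theorem mem_blk (c d : ℤ × ℤ) : d ∈ blk c ↔ touch c d := by
  unfold blk touch
  rw [Finset.mem_product, Finset.mem_Icc, Finset.mem_Icc, abs_le, abs_le]
  constructor
  · rintro ⟨⟨h1, h2⟩, h3, h4⟩
    exact ⟨⟨by linarith, by linarith⟩, by linarith, by linarith⟩
  · rintro ⟨⟨h1, h2⟩, h3, h4⟩
    exact ⟨⟨by linarith, by linarith⟩, by linarith, by linarith⟩

theorem self_mem_blk (c : ℤ × ℤ) : c ∈ blk c := by
  rw [mem_blk]
  unfold touch
  simp

theorem card_blk (c : ℤ × ℤ) : (blk c).card = 9 := by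
  unfold blk
  rw [Finset.card_product, Int.card_Icc, Int.card_Icc]
  have h1 : (c.1 + 1 + 1 - (c.1 - 1)).toNat = 3 := by
    have : c.1 + 1 + 1 - (c.1 - 1) = 3 := by ring
    rw [this]; rfl
  have h2 : (c.2 + 1 + 1 - (c.2 - 1)).toNat = 3 := by
    have : c.2 + 1 + 1 - (c.2 - 1) = 3 := by ring
    rw [this]; rfl
  rw [h1, h2]

theorem mem_sel (Q : Finset (ℤ × ℤ)) (c : ℤ × ℤ) : c ∈ sel Q ↔ Q ∩ blk c = {c} := by
  unfold sel
  rw [Finset.mem_filter]
  constructor
  · rintro ⟨h1, h2⟩
    ext d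
    rw [Finset.mem_inter, Finset.mem_singleton, mem_blk]
    constructor
    · rintro ⟨h3, h4⟩
      by_contra h5
      exact h2 d h3 h5 h4
    · rintro rfl
      exact ⟨h1, (mem_blk _ _).1 (self_mem_blk _)⟩
  · intro h
    have h1 : c ∈ Q ∩ blk c := by rw [h]; exact Finset.mem_singleton_self c
    refine ⟨(Finset.mem_inter.1 h1).1, fun d hd hne ht => hne ?_⟩
    have h2 : d ∈ Q ∩ blk c := Finset.mem_inter.2 ⟨hd, (mem_blk _ _).2 ht⟩
    rw [h] at h2
    exact Finset.mem_singleton.1 h2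

theorem sel_sep (Q : Finset (ℤ × ℤ)) {c d : ℤ × ℤ} (hc : c ∈ sel Q) (hd : d ∈ sel Q)
    (h : c ≠ d) : ¬ touch c d := by
  unfold sel at hc hd
  rw [Finset.mem_filter] at hc hd
  exact hc.2 d hd.1 (Ne.symm h)

/-- subsets of a disjoint union -/
theorem sum_split {β : Type*} [DecidableEq β] (s t : Finset β) (hst : Disjoint s t)
    (f g : Finset β → ℝ) :
    ∑ Q ∈ (s ∪ t).powerset, f (Q ∩ s) * g (Q ∩ t) =
      (∑ A ∈ s.powerset, f A) * ∑ B ∈ t.powerset, g B := by
  rw [Finset.sum_mul_sum, ← Finset.sum_product']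
  refine Finset.sum_nbij' (fun Q => (Q ∩ s, Q ∩ t)) (fun p => p.1 ∪ p.2) ?_ ?_ ?_ ?_ ?_
  · intro Q _
    rw [Finset.mem_product, Finset.mem_powerset, Finset.mem_powerset]
    exact ⟨Finset.inter_subset_right, Finset.inter_subset_right⟩
  · rintro ⟨A, B⟩ h
    rw [Finset.mem_product, Finset.mem_powerset, Finset.mem_powerset] at h
    rw [Finset.mem_powerset]
    exact Finset.union_subset_union h.1 h.2
  · intro Q hQ
    rw [Finset.mem_powerset] at hQ
    simp only
    rw [← Finset.inter_union_distrib_left]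
    exact Finset.inter_eq_left.2 hQ
  · rintro ⟨A, B⟩ h
    rw [Finset.mem_product, Finset.mem_powerset, Finset.mem_powerset] at h
    simp only at h
    simp only [Prod.mk.injEq]
    constructor
    · ext x
      rw [Finset.mem_inter, Finset.mem_union]
      constructor
      · rintro ⟨h1 | h1, h2⟩
        · exact h1
        · exact absurd (h.2 h1) (Finset.disjoint_left.1 hst h2)
      · intro h1
        exact ⟨Or.inl h1, h.1 h1⟩
    · ext x
      rw [Finset.mem_inter, Finset.mem_union]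
      constructor
      · rintro ⟨h1 | h1, h2⟩
        · exact absurd h2 (Finset.disjoint_left.1 hst (h.1 h1))
        · exact h1
      · intro h1
        exact ⟨Or.inr h1, h.2 h1⟩
  · intro Q _
    rfl

/-- the weight of `c` -/
def hh (c : ℤ × ℤ) (Q : Finset (ℤ × ℤ)) : ℝ := if Q ∩ blk c = {c} then 1 / 2 else 1

theorem sum_hh (c : ℤ × ℤ) : ∑ A ∈ (blk c).powerset, (if A = {c} then (1 / 2 : ℝ) else 1) =
    2 ^ 9 * (1023 / 1024) := by
  have h1 : ({c} : Finset (ℤ × ℤ)) ∈ (blk c).powerset := by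
    rw [Finset.mem_powerset, Finset.singleton_subset_iff]
    exact self_mem_blk c
  rw [← Finset.add_sum_erase _ _ h1, if_pos rfl]
  have h2 : ∑ A ∈ (blk c).powerset.erase {c}, (if A = {c} then (1 / 2 : ℝ) else 1) =
      ∑ A ∈ (blk c).powerset.erase {c}, (1 : ℝ) := by
    refine Finset.sum_congr rfl fun A hA => ?_
    rw [if_neg (Finset.ne_of_mem_erase hA)]
  rw [h2, Finset.sum_const, Finset.card_erase_of_mem h1, Finset.card_powerset, card_blk]
  norm_num

theorem sum_prod (T : Finset (ℤ × ℤ)) : ∀ S : Finset (ℤ × ℤ), (∀ c ∈ T, blk c ⊆ S) →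
    (∀ c ∈ T, ∀ d ∈ T, c ≠ d → Disjoint (blk c) (blk d)) →
    ∑ Q ∈ S.powerset, ∏ c ∈ T, hh c Q = 2 ^ S.card * (1023 / 1024) ^ T.card := by
  induction T using Finset.induction_on with
  | empty =>
    intro S _ _
    simp
  | insert c T hc ih =>
    intro S hS hsep
    have hcS := hS c (Finset.mem_insert_self c T)
    have hS' : S = blk c ∪ (S \ blk c) := (Finset.union_sdiff_of_subset hcS).symm
    have hdis : Disjoint (blk c) (S \ blk c) := Finset.disjoint_sdiff
    have hT : ∀ d ∈ T, blk d ⊆ S \ blk c := by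
      intro d hd
      have h1 := hsep c (Finset.mem_insert_self c T) d (Finset.mem_insert_of_mem hd)
        (fun h => hc (h ▸ hd))
      intro x hx
      rw [Finset.mem_sdiff]
      exact ⟨hS d (Finset.mem_insert_of_mem hd) hx, fun h2 => Finset.disjoint_left.1 h1 h2 hx⟩
    have e1 := ih (S \ blk c) hT (fun d hd d' hd' =>
      hsep d (Finset.mem_insert_of_mem hd) d' (Finset.mem_insert_of_mem hd'))
    have e2 := sum_split (blk c) (S \ blk c) hdis
      (fun A => if A = {c} then (1 / 2 : ℝ) else 1) (fun B => ∏ d ∈ T, hh d B)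
    rw [← hS', sum_hh, e1] at e2
    have hcard : S.card = 9 + (S \ blk c).card := by
      conv_lhs => rw [hS']
      rw [Finset.card_union_of_disjoint hdis, card_blk]
    have e3 : ∑ Q ∈ S.powerset, ∏ d ∈ insert c T, hh d Q =
        ∑ Q ∈ S.powerset, (if Q ∩ blk c = {c} then (1 / 2 : ℝ) else 1) *
          ∏ d ∈ T, hh d (Q ∩ (S \ blk c)) := by
      refine Finset.sum_congr rfl fun Q hQ => ?_
      rw [Finset.mem_powerset] at hQ
      rw [Finset.prod_insert hc]
      have e4 : hh c Q = if Q ∩ blk c = {c} then (1 / 2 : ℝ) else 1 := rfl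
      rw [e4]
      congr 1
      refine Finset.prod_congr rfl fun d hd => ?_
      have e5 : Q ∩ (S \ blk c) ∩ blk d = Q ∩ blk d := by
        ext x
        simp only [Finset.mem_inter]
        constructor
        · rintro ⟨⟨h1, _⟩, h2⟩
          exact ⟨h1, h2⟩
        · rintro ⟨h1, h2⟩
          exact ⟨⟨h1, hT d hd h2⟩, h2⟩
      unfold hh
      rw [e5]
    rw [e3, e2, hcard, Finset.card_insert_of_notMem hc]
    ring

/-- few `Q` have few selected cells in `T` -/
theorem few_sel (T S : Finset (ℤ × ℤ)) (hS : ∀ c ∈ T, blk c ⊆ S)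
    (hsep : ∀ c ∈ T, ∀ d ∈ T, c ≠ d → Disjoint (blk c) (blk d)) (t : ℕ) :
    ((S.powerset.filter (fun Q => (T.filter (fun c => c ∈ sel Q)).card < t)).card : ℝ) ≤
      2 ^ S.card * (2 ^ t * (1023 / 1024) ^ T.card) := by
  have h1 := sum_prod T S hS hsep
  have h2 : ∀ Q, ∏ c ∈ T, hh c Q = (1 / 2 : ℝ) ^ (T.filter (fun c => c ∈ sel Q)).card := by
    intro Q
    unfold hh
    rw [Finset.prod_ite, Finset.prod_const, Finset.prod_const_one, mul_one]
    congr 2
    ext c
    rw [Finset.mem_filter, Finset.mem_filter, mem_sel]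
  have h3 : ((S.powerset.filter (fun Q => (T.filter (fun c => c ∈ sel Q)).card < t)).card : ℝ) *
      (1 / 2) ^ t ≤ ∑ Q ∈ S.powerset, ∏ c ∈ T, hh c Q := by
    have h4 : ∑ Q ∈ S.powerset.filter (fun Q => (T.filter (fun c => c ∈ sel Q)).card < t),
        (1 / 2 : ℝ) ^ t ≤ ∑ Q ∈ S.powerset, ∏ c ∈ T, hh c Q := by
      refine le_trans ?_ (Finset.sum_le_sum_of_subset_of_nonneg (Finset.filter_subset (fun Q => (T.filter (fun c => c ∈ sel Q)).card < t) S.powerset)
        (fun Q _ _ => by rw [h2]; positivity))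
      refine Finset.sum_le_sum fun Q hQ => ?_
      rw [Finset.mem_filter] at hQ
      rw [h2]
      exact pow_le_pow_of_le_one (by norm_num) (by norm_num) hQ.2.le
    rw [Finset.sum_const, nsmul_eq_mul] at h4
    exact h4
  rw [h1] at h3
  have h5 : (0 : ℝ) < 2 ^ t := by positivity
  have h6 : ((1 : ℝ) / 2) ^ t = 1 / 2 ^ t := by rw [div_pow, one_pow]
  rw [h6, mul_one_div, div_le_iff₀ h5] at h3
  linarith

end

end Pool.Agent.T6.H92.SP
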