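import Pool.Agent.T6.H92.SP.Inst

/-!
# The proportion of the pairs (polygon, family of cells) with few selected free corners
-/

set_option autoImplicit false
set_option linter.unusedVariables false

namespace Pool.Agent.T6.H92.SP

open Finset Pool.Agent.H976R2 Pool.Agent.H976R2.Lip Pool.Agent.H924P Pool.Agent.H739K
  Pool.Agent.R54.AS
open Pool.Agent.R54.AS.AreaX (cell)
open scoped Classical

noncomputable section

theorem wX_le (w : List Dir) : |wX w| ≤ w.length := by
  induction w with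
  | nil => simp [wX]
  | cons d w ih =>
    rw [wX_cons, List.length_cons]
    have h1 : |dx d| ≤ 1 := by cases d <;> simp [dx]
    have h2 := abs_add_le (dx d) (wX w)
    push_cast
    linarith

theorem wY_le (w : List Dir) : |wY w| ≤ w.length := by
  induction w with
  | nil => simp [wY]
  | cons d w ih =>
    rw [wY_cons, List.length_cons]
    have h1 : |dy d| ≤ 1 := by cases d <;> simp [dy]
    have h2 := abs_add_le (dy d) (wY w)
    push_cast
    linarith

theorem PP_le (w : List Dir) (i : ℕ) : |(PP w i).1| ≤ w.length ∧ |(PP w i).2| ≤ w.length := by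
  have h : ((w.take i).length : ℤ) ≤ w.length := by
    rw [List.length_take]; omega
  exact ⟨(wX_le _).trans h, (wY_le _).trans h⟩

/-- the box -/
def box (L : ℕ) : Finset (ℤ × ℤ) := Icc (-((L : ℤ) + 1)) ((L : ℤ) + 1) ×ˢ Icc (-((L : ℤ) + 1)) ((L : ℤ) + 1)

theorem blk_box (w : List Dir) (i : ℕ) : blk (cell w i) ⊆ box w.length := by
  intro d hd
  rw [mem_blk] at hd
  unfold touch at hd
  have h1 := PP_le w i
  have h2 := PP_le w (i + 2)
  unfold box
  rw [mem_product, mem_Icc, mem_Icc]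
  have h3 : (cell w i).1 = min (PP w i).1 (PP w (i + 2)).1 := rfl
  have h4 : (cell w i).2 = min (PP w i).2 (PP w (i + 2)).2 := rfl
  rw [h3, h4, abs_le, abs_le] at hd
  rw [abs_le, abs_le] at h1 h2
  refine ⟨⟨?_, ?_⟩, ?_, ?_⟩ <;> omega

/-- admissible sets of free corners -/
structure Adm (N : ℕ) (I : List Dir → Finset ℕ) : Prop where
  fl : Flips (KP (2 * N - 1)) I sw cell (fun w => (ar w : ℤ))
  sub : ∀ w ∈ KP (2 * N - 1), I w ⊆ fc w
  card : ∀ w ∈ KP (2 * N - 1), 100 * (fc w).card ≤ 100 * (I w).card + N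

/-- the active cells -/
def acts (I : List Dir → Finset ℕ) (w : List Dir) : Finset (ℤ × ℤ) := (I w).image (cell w)

theorem mem_acts (I : List Dir → Finset ℕ) (w : List Dir) (c : ℤ × ℤ) :
    c ∈ acts I w ↔ Act I cell w c := by
  unfold acts Act
  rw [mem_image]

theorem card_acts (I : List Dir → Finset ℕ) (w : List Dir) (hw : Saw w) (hs : I w ⊆ fc w) :
    (acts I w).card = (I w).card := by
  unfold acts
  exact Finset.card_image_of_injOn fun i hi j hj h => cell_inj w hw i j (hs hi) (hs hj) h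

/-- the class modulo three -/
def cls (c : ℤ × ℤ) : ℤ × ℤ := (c.1 % 3, c.2 % 3)

theorem cls_sep {c d : ℤ × ℤ} (h : cls c = cls d) (hne : c ≠ d) : Disjoint (blk c) (blk d) := by
  rw [Finset.disjoint_left]
  intro x hx hy
  rw [mem_blk] at hx hy
  unfold touch at hx hy
  unfold cls at h
  simp only [Prod.mk.injEq] at h
  rw [abs_le, abs_le] at hx hy
  apply hne
  apply Prod.ext <;> omega

/-- a large class -/
theorem big_class (A : Finset (ℤ × ℤ)) : ∃ T ⊆ A, A.card ≤ 9 * T.card + 8 ∧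
    ∀ c ∈ T, ∀ d ∈ T, c ≠ d → Disjoint (blk c) (blk d) := by
  have h1 : ∀ c ∈ A, cls c ∈ (Icc (0 : ℤ) 2 ×ˢ Icc (0 : ℤ) 2) := by
    intro c _
    unfold cls
    rw [mem_product, mem_Icc, mem_Icc]
    refine ⟨⟨?_, ?_⟩, ?_, ?_⟩ <;> simp only <;> omega
  have h2 : (Icc (0 : ℤ) 2 ×ˢ Icc (0 : ℤ) 2).card = 9 := by
    rw [card_product, Int.card_Icc]; rfl
  have h3 : (Icc (0 : ℤ) 2 ×ˢ Icc (0 : ℤ) 2).card * (A.card / 9) ≤ A.card := by
    rw [h2]; omega
  obtain ⟨y, _, hy⟩ := Finset.exists_le_card_fiber_of_mul_le_card_of_maps_to h1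
    (by rw [← Finset.card_pos, h2]; norm_num) h3
  refine ⟨A.filter (fun c => cls c = y), Finset.filter_subset _ _, by omega, ?_⟩
  intro c hc d hd hne
  rw [mem_filter] at hc hd
  exact cls_sep (by rw [hc.2, hd.2]) hne

/-- the number of the binomial steps -/
def mN (N : ℕ) : ℕ := N / 1000000

theorem pow_bound (N t : ℕ) (h : N ≤ 450 * t + 450) :
    (2 : ℝ) ^ (mN N) * (1023 / 1024) ^ t ≤ 2 * Real.exp (-(N / 1000000 : ℝ)) := by
  have h1 : (2 : ℝ) ^ (mN N) ≤ Real.exp ((mN N : ℝ)) := by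
    rw [← Real.exp_one_pow]
    exact pow_le_pow_left₀ (by norm_num) (by have := Real.exp_one_gt_d9; linarith) _
  have h2 : ((1023 : ℝ) / 1024) ^ t ≤ Real.exp (-(t / 1024 : ℝ)) := by
    have h3 : ((1023 : ℝ) / 1024) ≤ Real.exp (-(1 / 1024)) := by
      have := Real.add_one_le_exp (-(1 / 1024 : ℝ))
      linarith
    have h4 : Real.exp (-(t / 1024 : ℝ)) = Real.exp (-(1 / 1024)) ^ t := by
      rw [← Real.exp_nat_mul]; congr 1; ring
    rw [h4]
    exact pow_le_pow_left₀ (by norm_num) h3 _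
  have h5 : (mN N : ℝ) ≤ N / 1000000 := by
    unfold mN
    have : ((N / 1000000 : ℕ) : ℝ) ≤ (N : ℝ) / ((1000000 : ℕ) : ℝ) := Nat.cast_div_le
    simpa using this
  have h6 : (N : ℝ) ≤ 450 * t + 450 := by exact_mod_cast h
  have h7 : Real.exp (1 / 2) ≤ 2 := by
    have h8 := Real.exp_one_lt_d9
    have h9 : Real.exp (1 / 2) ^ 2 = Real.exp 1 := by
      rw [← Real.exp_nat_mul]; congr 1; norm_num
    nlinarith [Real.exp_pos (1 / 2)]
  calc (2 : ℝ) ^ (mN N) * (1023 / 1024) ^ t ≤ Real.exp ((mN N : ℝ)) * Real.exp (-(t / 1024 : ℝ)) := by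
        gcongr
    _ = Real.exp ((mN N : ℝ) - t / 1024) := by rw [← Real.exp_add]; ring_nf
    _ ≤ Real.exp (1 / 2 + -(N / 1000000 : ℝ)) := by
        apply Real.exp_le_exp.2
        linarith
    _ = Real.exp (1 / 2) * Real.exp (-(N / 1000000 : ℝ)) := Real.exp_add _ _
    _ ≤ _ := by gcongr

/-- few families of cells are bad for a polygon with many free corners -/
theorem few_bad (N : ℕ) (hN : 2 ≤ N) (I : List Dir → Finset ℕ) (hI : Adm N I) (w : List Dir) (hw : w ∈ KP (2 * N - 1))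
    (hfc : ((2 * N - 1 : ℕ) : ℝ) / 50 ≤ ((fc w).card : ℝ)) :
    (((box (2 * N - 1)).powerset.filter (fun Q => mm I cell (sel Q) w < mN N)).card : ℝ) ≤
      2 ^ (box (2 * N - 1)).card * (2 * Real.exp (-(N / 1000000 : ℝ))) := by
  obtain ⟨hl, hs, hq⟩ := Fin.mem_KP.mp hw
  obtain ⟨T, hT, hcard, hsep⟩ := big_class (acts I w)
  have hbox : ∀ c ∈ T, blk c ⊆ box (2 * N - 1) := by
    intro c hc
    have := hT hc
    unfold acts at this
    rw [mem_image] at this
    obtain ⟨i, _, rfl⟩ := this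
    rw [← hl]
    exact blk_box w i
  have h1 := few_sel T (box (2 * N - 1)) hbox hsep (mN N)
  have h2 : (box (2 * N - 1)).powerset.filter (fun Q => mm I cell (sel Q) w < mN N) ⊆
      (box (2 * N - 1)).powerset.filter (fun Q => (T.filter (fun c => c ∈ sel Q)).card < mN N) := by
    intro Q hQ
    rw [mem_filter] at hQ ⊢
    refine ⟨hQ.1, lt_of_le_of_lt ?_ hQ.2⟩
    unfold mm
    apply Finset.card_le_card
    intro c hc
    rw [mem_filter] at hc ⊢
    exact ⟨hc.2, (mem_acts I w c).1 (hT hc.1)⟩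
  have h3 : (((box (2 * N - 1)).powerset.filter (fun Q => mm I cell (sel Q) w < mN N)).card : ℝ) ≤
      (((box (2 * N - 1)).powerset.filter
        (fun Q => (T.filter (fun c => c ∈ sel Q)).card < mN N)).card : ℝ) := by
    exact_mod_cast Finset.card_le_card h2
  refine h3.trans (h1.trans ?_)
  apply mul_le_mul_of_nonneg_left _ (by positivity)
  apply pow_bound
  rw [card_acts I w hs (hI.sub w hw)] at hcard
  have hIc := hI.card w hw
  have h4 : (2 * N - 1 : ℕ) ≤ 50 * (fc w).card := by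
    have h5 : (((2 * N - 1 : ℕ)) : ℝ) ≤ 50 * (fc w).card := by linarith
    exact_mod_cast h5
  omega

/-- **few pairs are bad** -/
theorem few_pairs : ∃ C c : ℝ, 0 < C ∧ 0 < c ∧ ∀ N : ℕ, 2 ≤ N → ∀ I : List Dir → Finset ℕ, Adm N I →
    ∑ w ∈ KP (2 * N - 1), (((box (2 * N - 1)).powerset.filter
      (fun Q => mm I cell (sel Q) w < mN N)).card : ℝ) ≤
      C * Real.exp (-(c * N)) * (((KP (2 * N - 1)).card : ℝ) * 2 ^ (box (2 * N - 1)).card) := by
  obtain ⟨C, c, hC, hc, h⟩ := Fin.few_exp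
  refine ⟨C + 2, min c (1 / 1000000), by positivity, by positivity, fun N hN I hI => ?_⟩
  have hNr : (2 : ℝ) ≤ N := by exact_mod_cast hN
  have hcp := Fin.card_pos hN
  have hcast : ((2 * N - 1 : ℕ) : ℝ) = 2 * N - 1 := by
    rw [Nat.cast_sub (by omega)]; push_cast; ring
  set B : ℝ := 2 ^ (box (2 * N - 1)).card with hB
  have hB0 : 0 < B := by positivity
  set K : ℝ := ((KP (2 * N - 1)).card : ℝ) with hK
  have h1 : ∀ w ∈ KP (2 * N - 1), (((box (2 * N - 1)).powerset.filter
      (fun Q => mm I cell (sel Q) w < mN N)).card : ℝ) ≤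
      (if w ∈ fewc (2 * N - 1) then B else 0) + B * (2 * Real.exp (-(N / 1000000 : ℝ))) := by
    intro w hw
    split_ifs with hf
    · have h2 : (((box (2 * N - 1)).powerset.filter
        (fun Q => mm I cell (sel Q) w < mN N)).card : ℝ) ≤ B := by
        have h3 := Finset.card_filter_le (box (2 * N - 1)).powerset
          (fun Q => mm I cell (sel Q) w < mN N)
        rw [Finset.card_powerset] at h3
        rw [hB]
        exact_mod_cast h3
      have h4 : 0 ≤ B * (2 * Real.exp (-(N / 1000000 : ℝ))) := by positivity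
      linarith
    · rw [zero_add]
      refine few_bad N hN I hI w hw ?_
      by_contra hlt
      push Not at hlt
      apply hf
      unfold fewc
      rw [mem_filter]
      obtain ⟨hl, hs, hq⟩ := Fin.mem_KP.mp hw
      exact ⟨mem_SW.2 ⟨hl, hs⟩, hlt⟩
  refine (Finset.sum_le_sum h1).trans ?_
  rw [Finset.sum_add_distrib, Finset.sum_const, nsmul_eq_mul, ← hK]
  have h2 : ∑ w ∈ KP (2 * N - 1), (if w ∈ fewc (2 * N - 1) then B else 0) ≤
      ((fewc (2 * N - 1)).card : ℝ) * B := by
    rw [← Finset.sum_filter, Finset.sum_const, nsmul_eq_mul]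
    apply mul_le_mul_of_nonneg_right _ hB0.le
    exact_mod_cast Finset.card_le_card (fun w hw => (mem_filter.1 hw).2)
  have h3 := h (2 * N - 1) (by omega) (by omega)
  rw [← hK] at h3
  have h4 : Real.exp (-(c * ((2 * N - 1 : ℕ) : ℝ))) ≤ Real.exp (-(min c (1 / 1000000) * N)) := by
    apply Real.exp_le_exp.2
    rw [hcast]
    have h5 : min c (1 / 1000000) ≤ c := min_le_left _ _
    have h6 : 0 < min c (1 / 1000000) := by positivity
    nlinarith
  have h5 : Real.exp (-(N / 1000000 : ℝ)) ≤ Real.exp (-(min c (1 / 1000000) * N)) := by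
    apply Real.exp_le_exp.2
    have h5 : min c (1 / 1000000) ≤ 1 / 1000000 := min_le_right _ _
    nlinarith
  set X : ℝ := Real.exp (-(min c (1 / 1000000) * N)) with hX
  have hX0 : 0 < X := Real.exp_pos _
  have h6 : ((fewc (2 * N - 1)).card : ℝ) * B ≤ C * X * K * B := by
    apply mul_le_mul_of_nonneg_right _ hB0.le
    refine h3.trans ?_
    apply mul_le_mul_of_nonneg_right _ hcp.le
    exact mul_le_mul_of_nonneg_left h4 hC.le
  have h7 : K * (B * (2 * Real.exp (-(N / 1000000 : ℝ)))) ≤ K * (B * (2 * X)) := by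
    gcongr
  linarith [h2.trans h6, h7]

end

end Pool.Agent.T6.H92.SP
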