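import Pool.Agent.T6.H92.SP.Kern

/-!
# Oscillations, residue classes and differences under the symmetric binomial kernel
-/

set_option autoImplicit false
set_option linter.unusedVariables false

namespace Pool.Agent.T6.H92.SP

open Finset
open scoped Classical

noncomputable section

theorem cos_half {θ : ℝ} (h : |θ| ≤ Real.pi) : |Real.cos (θ / 2)| ≤ Real.exp (-(θ ^ 2 / 20)) := by
  have hpi := Real.pi_pos
  have h1 := abs_le.1 h
  have h2 : 0 ≤ Real.cos (θ / 2) := Real.cos_nonneg_of_mem_Icc ⟨by linarith, by linarith⟩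
  rw [abs_of_nonneg h2]
  have h3 : Real.cos (θ / 2) ≤ 1 - 2 / Real.pi ^ 2 * (θ / 2) ^ 2 := by
    apply Real.cos_le_one_sub_mul_cos_sq
    rw [abs_div, abs_of_pos (by norm_num : (0 : ℝ) < 2)]
    linarith
  have h4 : Real.pi ^ 2 ≤ 10 := by
    have := Real.pi_lt_d2
    nlinarith
  have h5 : θ ^ 2 / 20 ≤ 2 / Real.pi ^ 2 * (θ / 2) ^ 2 := by
    have e : 2 / Real.pi ^ 2 * (θ / 2) ^ 2 = θ ^ 2 / (2 * Real.pi ^ 2) := by field_simp
    rw [e]
    apply div_le_div_of_nonneg_left (by positivity) (by positivity)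
    linarith
  have h6 := Real.add_one_le_exp (-(θ ^ 2 / 20))
  linarith

/-- oscillations -/
theorem osc (m : ℕ) {θ : ℝ} (φ : ℝ) (h : |θ| ≤ Real.pi) (x : ℤ) :
    |Bop^[m] (fun x : ℤ => Real.cos (θ * x + φ)) x| ≤ Real.exp (-(m * θ ^ 2 / 20)) := by
  rw [iter_cos, abs_mul, abs_pow]
  have h1 : |Real.cos (θ / 2)| ^ m ≤ Real.exp (-(θ ^ 2 / 20)) ^ m :=
    pow_le_pow_left₀ (abs_nonneg _) (cos_half h) m
  have h2 : Real.exp (-(θ ^ 2 / 20)) ^ m = Real.exp (-(m * θ ^ 2 / 20)) := by
    rw [← Real.exp_nat_mul]; congr 1; ring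
  calc |Real.cos (θ / 2)| ^ m * |Real.cos (θ * x + φ + m * (θ / 2))| ≤
        Real.exp (-(θ ^ 2 / 20)) ^ m * 1 :=
        mul_le_mul h1 (Real.abs_cos_le_one _) (abs_nonneg _) (by positivity)
    _ = _ := by rw [mul_one, h2]

/-- the finite Fourier expansion -/
theorem fourier (q : ℕ) (hq : 1 ≤ q) (y : ℤ) :
    ∑ k ∈ Finset.range q, Real.cos (2 * Real.pi * k / q * y) = if (q : ℤ) ∣ y then (q : ℝ) else 0 := by
  have hq0 : (0 : ℝ) < q := by exact_mod_cast hq
  split_ifs with h
  · obtain ⟨t, rfl⟩ := h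
    have h1 : ∀ k ∈ Finset.range q, Real.cos (2 * Real.pi * k / q * ((q : ℤ) * t : ℤ)) = 1 := by
      intro k _
      have e : 2 * Real.pi * k / q * (((q : ℤ) * t : ℤ) : ℝ) = ((k * t : ℤ) : ℝ) * (2 * Real.pi) := by
        push_cast
        field_simp
      rw [e]
      exact Real.cos_int_mul_two_pi _
    rw [Finset.sum_congr rfl h1]
    simp
  · set s : ℝ := Real.pi * y / q with hs
    have h1 : Real.sin s ≠ 0 := by
      intro h0
      rw [Real.sin_eq_zero_iff] at h0
      obtain ⟨n, hn⟩ := h0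
      apply h
      refine ⟨n, ?_⟩
      have hpi := Real.pi_pos.ne'
      have h2 : (y : ℝ) = q * n := by
        rw [hs, eq_div_iff hq0.ne'] at hn
        have h3 : Real.pi * (n * q) = Real.pi * y := by linarith
        have h4 := mul_left_cancel₀ hpi h3
        linarith
      exact_mod_cast h2
    have h2 : ∀ n : ℕ, (∑ k ∈ Finset.range n, Real.cos (2 * Real.pi * k / q * y)) * (2 * Real.sin s) =
        Real.sin ((2 * n - 1) * s) + Real.sin s := by
      intro n
      induction n with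
      | zero =>
        simp only [Finset.range_zero, Finset.sum_empty, zero_mul]
        push_cast
        have : (2 * (0 : ℝ) - 1) * s = -s := by ring
        rw [this, Real.sin_neg]
        ring
      | succ n ih =>
        rw [Finset.sum_range_succ, add_mul, ih]
        have e1 : 2 * Real.pi * n / q * y = 2 * n * s := by rw [hs]; ring
        have e2 : (2 * ((n + 1 : ℕ) : ℝ) - 1) * s = 2 * n * s + s := by push_cast; ring
        have e3 : (2 * (n : ℝ) - 1) * s = 2 * n * s - s := by ring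
        rw [e1, e2, e3, Real.sin_add, Real.sin_sub]
        ring
    have h3 := h2 q
    have e1 : (2 * (q : ℝ) - 1) * s = (y : ℝ) * (2 * Real.pi) - s := by
      rw [hs]; field_simp
    have e2 : Real.sin ((y : ℝ) * (2 * Real.pi) - s) = - Real.sin s := by
      have := Real.sin_int_mul_two_pi_sub s y
      rw [this]
    rw [e1, e2, neg_add_cancel] at h3
    rcases mul_eq_zero.1 h3 with h4 | h4
    · exact h4
    · exfalso
      apply h1
      linarith

theorem Bop_sum {ι : Type*} (s : Finset ι) (u : ι → ℤ → ℝ) (m : ℕ) :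
    Bop^[m] (fun x => ∑ k ∈ s, u k x) = fun x => ∑ k ∈ s, Bop^[m] (u k) x := by
  induction m with
  | zero => rfl
  | succ m ih =>
    rw [Function.iterate_succ_apply', ih]
    funext x
    have e : ∀ k ∈ s, Bop^[m + 1] (u k) x = (Bop^[m] (u k) x + Bop^[m] (u k) (x + 1)) / 2 := by
      intro k _
      rw [Function.iterate_succ_apply']
      rfl
    rw [Finset.sum_congr rfl e, ← Finset.sum_div, Finset.sum_add_distrib]
    rfl

theorem Bop_smul (a : ℝ) (u : ℤ → ℝ) (m : ℕ) :
    Bop^[m] (fun x => a * u x) = fun x => a * Bop^[m] u x := by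
  induction m with
  | zero => rfl
  | succ m ih =>
    rw [Function.iterate_succ_apply', ih]
    funext x
    rw [Function.iterate_succ_apply']
    unfold Bop
    ring

theorem cos_frac (q k : ℕ) (h1 : 1 ≤ k) (h2 : k < q) :
    |Real.cos (2 * Real.pi * k / q / 2)| ≤ Real.exp (-(2 / (q : ℝ) ^ 2)) := by
  have hpi := Real.pi_pos
  have hq0 : (0 : ℝ) < q := by
    have : 0 < q := by omega
    exact_mod_cast this
  have hk1 : (1 : ℝ) ≤ k := by exact_mod_cast h1
  have hkq : (k : ℝ) + 1 ≤ q := by exact_mod_cast h2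
  set x : ℝ := Real.pi * k / q with hx
  have e : 2 * Real.pi * k / q / 2 = x := by rw [hx]; ring
  rw [e]
  have hx1 : Real.pi / q ≤ x := by
    rw [hx]; apply div_le_div_of_nonneg_right _ hq0.le; nlinarith
  have hx2 : x ≤ Real.pi - Real.pi / q := by
    rw [hx, le_sub_iff_add_le, ← add_div, div_le_iff₀ hq0]
    nlinarith
  have hpq : 0 < Real.pi / q := by positivity
  have hexp := Real.add_one_le_exp (-(2 / (q : ℝ) ^ 2))
  have key : ∀ z : ℝ, Real.pi / q ≤ z → z ≤ Real.pi → Real.cos z ≤ 1 - 2 / (q : ℝ) ^ 2 := by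
    intro z hz1 hz2
    have h3 := Real.cos_le_one_sub_mul_cos_sq (x := z) (by rw [abs_of_nonneg (by linarith)]; exact hz2)
    have h4 : 2 / Real.pi ^ 2 * (Real.pi / q) ^ 2 ≤ 2 / Real.pi ^ 2 * z ^ 2 := by
      apply mul_le_mul_of_nonneg_left _ (by positivity)
      exact pow_le_pow_left₀ hpq.le hz1 2
    have h5 : 2 / Real.pi ^ 2 * (Real.pi / q) ^ 2 = 2 / (q : ℝ) ^ 2 := by field_simp
    linarith
  rw [abs_le]
  constructor
  · have h6 := key (Real.pi - x) (by linarith) (by linarith)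
    rw [Real.cos_pi_sub] at h6
    linarith
  · have h6 := key x hx1 (by linarith)
    linarith

/-- residue classes -/
theorem res_class (m q : ℕ) (hq : 1 ≤ q) (r : ℤ) (x : ℤ) :
    |Bop^[m] (fun x : ℤ => (if (q : ℤ) ∣ x - r then (1 : ℝ) else 0) - 1 / q) x| ≤
      Real.exp (-(2 * m / (q : ℝ) ^ 2)) := by
  have hq0 : (0 : ℝ) < q := by exact_mod_cast hq
  have e1 : (fun x : ℤ => (if (q : ℤ) ∣ x - r then (1 : ℝ) else 0) - 1 / q) =
      fun x : ℤ => (1 / q : ℝ) * ∑ k ∈ Finset.Ico 1 q,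
        Real.cos (2 * Real.pi * k / q * x + (-(2 * Real.pi * k / q * r))) := by
    funext y
    have h1 := fourier q hq (y - r)
    have h2 : ∑ k ∈ Finset.range q, Real.cos (2 * Real.pi * k / q * ((y - r : ℤ) : ℝ)) =
        1 + ∑ k ∈ Finset.Ico 1 q,
        Real.cos (2 * Real.pi * k / q * y + (-(2 * Real.pi * k / q * r))) := by
      rw [Finset.range_eq_Ico, Finset.sum_eq_sum_Ico_succ_bot (by omega)]
      congr 1
      · simp
      · refine Finset.sum_congr rfl fun k _ => ?_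
        congr 1
        push_cast
        ring
    rw [h2] at h1
    have h3 : ∑ k ∈ Finset.Ico 1 q,
        Real.cos (2 * Real.pi * k / q * y + (-(2 * Real.pi * k / q * r))) =
        (if (q : ℤ) ∣ y - r then (q : ℝ) else 0) - 1 := by linarith
    rw [h3]
    split_ifs
    · field_simp
    · field_simp
      ring
  rw [e1, Bop_smul, Bop_sum]
  simp only
  rw [abs_mul, abs_of_pos (by positivity : (0 : ℝ) < 1 / q)]
  have h4 : |∑ k ∈ Finset.Ico 1 q, Bop^[m]
      (fun x : ℤ => Real.cos (2 * Real.pi * k / q * x + (-(2 * Real.pi * k / q * r)))) x| ≤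
      (q : ℝ) * Real.exp (-(2 * m / (q : ℝ) ^ 2)) := by
    refine (Finset.abs_sum_le_sum_abs _ _).trans ?_
    refine (Finset.sum_le_sum (g := fun _ => Real.exp (-(2 * m / (q : ℝ) ^ 2))) fun k hk => ?_).trans ?_
    · rw [mem_Ico] at hk
      rw [iter_cos, abs_mul, abs_pow]
      have h5 := pow_le_pow_left₀ (abs_nonneg _) (cos_frac q k hk.1 hk.2) m
      have h6 : Real.exp (-(2 / (q : ℝ) ^ 2)) ^ m = Real.exp (-(2 * m / (q : ℝ) ^ 2)) := by
        rw [← Real.exp_nat_mul]; congr 1; ring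
      rw [h6] at h5
      calc _ ≤ Real.exp (-(2 * m / (q : ℝ) ^ 2)) * 1 :=
            mul_le_mul h5 (Real.abs_cos_le_one _) (abs_nonneg _) (Real.exp_pos _).le
        _ = _ := mul_one _
    · rw [Finset.sum_const, Nat.card_Ico, nsmul_eq_mul]
      apply mul_le_mul_of_nonneg_right _ (Real.exp_pos _).le
      have : q - 1 ≤ q := by omega
      exact_mod_cast this
  refine (mul_le_mul_of_nonneg_left h4 (by positivity)).trans (le_of_eq ?_)
  field_simp

theorem Dop_bd {g : ℤ → ℝ} (k : ℕ) : ∀ {B : ℝ}, (∀ x, |g x| ≤ B) → ∀ x, |Dop^[k] g x| ≤ 2 ^ k * B := by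
  induction k with
  | zero =>
    intro B h x
    simpa using h x
  | succ k ih =>
    intro B h x
    rw [Function.iterate_succ_apply']
    have h1 := abs_le.1 (ih h (x + 1))
    have h2 := abs_le.1 (ih h x)
    unfold Dop
    rw [pow_succ, abs_le]
    unfold Dop at h1 h2
    constructor <;> linarith [h1.1, h1.2, h2.1, h2.2]

/-- differences -/
theorem diffs (M N k : ℕ) (hM : 1 ≤ M) (hN : 1 ≤ N) (hk : 1 ≤ k) {g : ℤ → ℝ} (hg : ∀ x, |g x| ≤ 1)
    (x : ℤ) : |Bop^[N / M] (Dop^[k] g) x| ≤ Real.sqrt (4 * M * k / N) ^ k := by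
  set m := N / M with hm
  have h1 : m = (m - k * (m / k)) + k * (m / k) := by
    have := Nat.mul_div_le m k
    omega
  have h2 : ∀ y, |Bop^[k * (m / k)] (Dop^[k] g) y| ≤
      (2 / Real.sqrt ((m / k + 1 : ℕ) : ℝ)) ^ k * 1 := smooth_iter (m / k) k zero_le_one hg
  rw [h1, Function.iterate_add_apply]
  refine (iter_bd h2 _ x).trans ?_
  rw [mul_one]
  have hNr : (0 : ℝ) < N := by exact_mod_cast hN
  have hkr : (0 : ℝ) < k := by exact_mod_cast hk
  have hMr : (0 : ℝ) < M := by exact_mod_cast hM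
  have h3 : N < M * (k * (m / k + 1)) := by
    have h4 : m < k * (m / k + 1) := Nat.lt_mul_div_succ m (by omega : 0 < k)
    have h5 : N < M * (m + 1) := Nat.lt_mul_div_succ N (by omega : 0 < M)
    exact lt_of_lt_of_le h5 (Nat.mul_le_mul_left M h4)
  have h4 : (N : ℝ) < M * (k * ((m / k + 1 : ℕ) : ℝ)) := by exact_mod_cast h3
  apply pow_le_pow_left₀ (by positivity)
  set t : ℝ := ((m / k + 1 : ℕ) : ℝ) with ht
  have ht0 : 0 < t := by
    rw [ht]
    have : 0 < m / k + 1 := Nat.succ_pos _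
    exact_mod_cast this
  apply Real.le_sqrt_of_sq_le
  rw [div_pow, Real.sq_sqrt ht0.le, div_le_div_iff₀ ht0 hNr]
  nlinarith

theorem exp_vs (c C' : ℝ) (hc : 0 < c) (hC' : 2 / c ≤ C') (N k : ℕ) (hN : 1 ≤ N) (hk : 1 ≤ k) :
    Real.exp (-(c * N)) * 2 ^ k ≤ Real.sqrt (C' * k / N) ^ k := by
  have hNr : (0 : ℝ) < N := by exact_mod_cast hN
  have hkr : (0 : ℝ) < k := by exact_mod_cast hk
  have hC0 : 0 < C' := lt_of_lt_of_le (by positivity) hC'
  set y : ℝ := C' * k / (4 * N) with hy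
  have hy0 : 0 < y := by positivity
  have h1 : Real.sqrt (C' * k / N) = 2 * Real.sqrt y := by
    have : C' * k / N = 2 ^ 2 * y := by rw [hy]; field_simp; ring
    rw [this, Real.sqrt_mul (by norm_num), Real.sqrt_sq (by norm_num)]
  rw [h1, mul_pow, mul_comm]
  apply mul_le_mul_of_nonneg_left _ (by positivity)
  have h2 : Real.sqrt y ^ k = Real.exp (k / 2 * Real.log y) := by
    rw [Real.sqrt_eq_rpow, ← Real.rpow_natCast, ← Real.rpow_mul hy0.le, Real.rpow_def_of_pos hy0]
    congr 1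
    ring
  rw [h2]
  apply Real.exp_le_exp.2
  have h3 := Real.one_sub_inv_le_log_of_pos hy0
  have h4 : (k : ℝ) / 2 * (1 - y⁻¹) ≤ k / 2 * Real.log y :=
    mul_le_mul_of_nonneg_left h3 (by positivity)
  have h5 : (k : ℝ) / 2 * y⁻¹ = 2 * N / C' := by
    rw [hy]; field_simp; ring
  have h6 : 2 * N / C' ≤ c * N := by
    rw [div_le_iff₀ hC0]
    have h7 : 2 ≤ C' * c := by
      rw [div_le_iff₀ hc] at hC'
      exact hC'
    nlinarith
  have h8 : (0 : ℝ) ≤ k / 2 := by positivity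
  nlinarith

/-- reflection -/
theorem Dop_refl (φ : ℤ → ℝ) (x : ℤ) (k : ℕ) : ∀ a : ℤ,
    Dop^[k] (fun a => φ (x - a)) a = (-1) ^ k * Dop^[k] φ (x - a - k) := by
  induction k with
  | zero =>
    intro a
    simp
  | succ k ih =>
    intro a
    rw [Function.iterate_succ_apply', Function.iterate_succ_apply']
    have e1 : Dop (Dop^[k] fun a => φ (x - a)) a =
        (Dop^[k] fun a => φ (x - a)) (a + 1) - (Dop^[k] fun a => φ (x - a)) a := rfl
    have e2 : Dop (Dop^[k] φ) (x - a - ((k + 1 : ℕ) : ℤ)) =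
        Dop^[k] φ (x - a - ((k + 1 : ℕ) : ℤ) + 1) - Dop^[k] φ (x - a - ((k + 1 : ℕ) : ℤ)) := rfl
    rw [e1, e2, ih (a + 1), ih a]
    have e3 : x - a - ((k + 1 : ℕ) : ℤ) + 1 = x - a - k := by push_cast; ring
    have e4 : x - (a + 1) - (k : ℤ) = x - a - ((k + 1 : ℕ) : ℤ) := by push_cast; ring
    rw [e3, e4, pow_succ]
    ring

theorem Dop_sum {ι : Type*} (s : Finset ι) (u : ι → ℤ → ℝ) (k : ℕ) :
    Dop^[k] (fun x => ∑ i ∈ s, u i x) = fun x => ∑ i ∈ s, Dop^[k] (u i) x := by
  induction k with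
  | zero => rfl
  | succ k ih =>
    rw [Function.iterate_succ_apply', ih]
    funext x
    have e : ∀ i ∈ s, Dop^[k + 1] (u i) x = Dop^[k] (u i) (x + 1) - Dop^[k] (u i) x := by
      intro i _
      rw [Function.iterate_succ_apply']
      rfl
    rw [Finset.sum_congr rfl e, Finset.sum_sub_distrib]
    rfl

theorem Dop_smul (a : ℝ) (u : ℤ → ℝ) (k : ℕ) :
    Dop^[k] (fun x => a * u x) = fun x => a * Dop^[k] u x := by
  induction k with
  | zero => rfl
  | succ k ih =>
    rw [Function.iterate_succ_apply', ih]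
    funext x
    rw [Function.iterate_succ_apply']
    unfold Dop
    ring

end

end Pool.Agent.T6.H92.SP
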