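import Pool.Agent.T6.H92.SP.Bad

/-!
# The law of the area as a mixture of shifted binomial laws: words
-/

set_option autoImplicit false
set_option linter.unusedVariables false

namespace Pool.Agent.T6.H92.SP

open Finset Pool.Agent.H976R2 Pool.Agent.H976R2.Lip Pool.Agent.H924P Pool.Agent.H739K
  Pool.Agent.R54.AS
open Pool.Agent.R54.AS.AreaX (cell)
open scoped Classical

noncomputable section

/-- the base point of the binomial law -/
def bp (I : List Dir → Finset ℕ) (w : List Dir) (Q : Finset (ℤ × ℤ)) : ℤ :=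
  (ar w : ℤ) - ng I sw cell (fun w => (ar w : ℤ)) (sel Q) w

/-- the surplus -/
def ex (N : ℕ) (I : List Dir → Finset ℕ) (w : List Dir) (Q : Finset (ℤ × ℤ)) : ℕ := mm I cell (sel Q) w - mN N

/-- the good families of cells -/
def good (N : ℕ) (I : List Dir → Finset ℕ) (w : List Dir) : Finset (Finset (ℤ × ℤ)) :=
  (box (2 * N - 1)).powerset.filter (fun Q => ¬ mm I cell (sel Q) w < mN N)

theorem split_id (N : ℕ) (hN : 2 ≤ N) (I : List Dir → Finset ℕ) (hI : Adm N I) (F : List Dir → ℝ)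
    (hF : ∀ w ∈ KP (2 * N - 1), ∀ i ∈ I w, F (sw w i) = F w) (g : ℤ → ℝ) :
    (2 : ℝ) ^ (box (2 * N - 1)).card * ∑ w ∈ KP (2 * N - 1), F w * g (ar w) =
      ∑ w ∈ KP (2 * N - 1), ∑ Q ∈ good N I w, F w * (Bop^[ex N I w Q] (Bop^[mN N] g)) (bp I w Q) +
      ∑ w ∈ KP (2 * N - 1), ∑ Q ∈ (box (2 * N - 1)).powerset.filter
        (fun Q => mm I cell (sel Q) w < mN N), F w * (Bop^[mm I cell (sel Q) w] g) (bp I w Q) := by
  have h1 : (2 : ℝ) ^ (box (2 * N - 1)).card * ∑ w ∈ KP (2 * N - 1), F w * g (ar w) =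
      ∑ Q ∈ (box (2 * N - 1)).powerset, ∑ w ∈ KP (2 * N - 1), F w * g (ar w) := by
    rw [Finset.sum_const, nsmul_eq_mul, Finset.card_powerset]
    push_cast
    rfl
  have h2 : ∀ Q ∈ (box (2 * N - 1)).powerset, ∑ w ∈ KP (2 * N - 1), F w * g (ar w) =
      ∑ w ∈ KP (2 * N - 1), F w * (Bop^[mm I cell (sel Q) w] g) (bp I w Q) := by
    intro Q _
    exact average hI.fl F hF g (sel Q) (fun c hc d hd hcd => sel_sep Q hc hd hcd)
  rw [h1, Finset.sum_congr rfl h2, Finset.sum_comm, ← Finset.sum_add_distrib]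
  refine Finset.sum_congr rfl fun w _ => ?_
  rw [← Finset.sum_filter_add_sum_filter_not (box (2 * N - 1)).powerset
    (fun Q => mm I cell (sel Q) w < mN N), add_comm]
  congr 1
  refine Finset.sum_congr rfl fun Q hQ => ?_
  unfold good at hQ
  rw [mem_filter] at hQ
  have h3 : mm I cell (sel Q) w = ex N I w Q + mN N := by
    unfold ex; omega
  rw [← Function.iterate_add_apply, ← h3]

theorem bad_bound (N : ℕ) (I : List Dir → Finset ℕ) (F : List Dir → ℝ) (hF1 : ∀ w ∈ KP (2 * N - 1), |F w| ≤ 1)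
    (g : ℤ → ℝ) (D X : ℝ) (hg : ∀ x, |g x| ≤ D)
    (hX : ∑ w ∈ KP (2 * N - 1), (((box (2 * N - 1)).powerset.filter
      (fun Q => mm I cell (sel Q) w < mN N)).card : ℝ) ≤ X) :
    |∑ w ∈ KP (2 * N - 1), ∑ Q ∈ (box (2 * N - 1)).powerset.filter
        (fun Q => mm I cell (sel Q) w < mN N), F w * (Bop^[mm I cell (sel Q) w] g) (bp I w Q)| ≤
      D * X := by
  have hD : 0 ≤ D := (abs_nonneg _).trans (hg 0)
  refine le_trans ?_ (mul_le_mul_of_nonneg_left hX hD)
  rw [Finset.mul_sum]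
  refine (Finset.abs_sum_le_sum_abs _ _).trans (Finset.sum_le_sum fun w hw => ?_)
  refine (Finset.abs_sum_le_sum_abs _ _).trans ?_
  refine (Finset.sum_le_sum (g := fun _ => D) fun Q hQ => ?_).trans ?_
  · rw [abs_mul]
    have h1 := iter_bd hg (mm I cell (sel Q) w) (bp I w Q)
    calc |F w| * |(Bop^[mm I cell (sel Q) w] g) (bp I w Q)| ≤ 1 * D :=
          mul_le_mul (hF1 w hw) h1 (abs_nonneg _) zero_le_one
      _ = D := one_mul D
  · rw [Finset.sum_const, nsmul_eq_mul, mul_comm]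

/-- **The core inequality.** -/
theorem core : ∃ C c : ℝ, 0 < C ∧ 0 < c ∧ ∀ N : ℕ, 2 ≤ N → ∀ I : List Dir → Finset ℕ, Adm N I →
    ∀ F : List Dir → ℝ, (∀ w ∈ KP (2 * N - 1), |F w| ≤ 1) →
    (∀ w ∈ KP (2 * N - 1), ∀ i ∈ I w, F (sw w i) = F w) →
    (∀ (g : ℤ → ℝ) (B D : ℝ), (∀ x, |g x| ≤ D) → (∀ x, |Bop^[mN N] g x| ≤ B) →
    |∑ w ∈ KP (2 * N - 1), F w * g (ar w)| ≤
      ((KP (2 * N - 1)).card : ℝ) * (B + C * Real.exp (-(c * N)) * D)) ∧
    ((∀ w ∈ KP (2 * N - 1), 0 ≤ F w) → ∃ ν : ℤ →₀ ℝ, (∀ a, 0 ≤ ν a) ∧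
      ν.sum (fun _ p => p) ≤ 1 ∧ ∀ (g : ℤ → ℝ), (∀ x, |g x| ≤ 1) →
      |∑ w ∈ KP (2 * N - 1), F w * g (ar w) -
        ((KP (2 * N - 1)).card : ℝ) * ν.sum (fun a p => p * (Bop^[mN N] g) a)| ≤
        ((KP (2 * N - 1)).card : ℝ) * (C * Real.exp (-(c * N)))) := by
  obtain ⟨C, c, hC, hc, h⟩ := few_pairs
  refine ⟨C, c, hC, hc, fun N hN I hI F hF1 hF => ⟨?_, ?_⟩⟩
  · intro g B D hD hB
    have hX := h N hN I hI
    set K : ℝ := ((KP (2 * N - 1)).card : ℝ) with hK
    set T : ℝ := (2 : ℝ) ^ (box (2 * N - 1)).card with hT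
    have hT0 : 0 < T := by positivity
    have h1 := split_id N hN I hI F hF g
    have h2 := bad_bound N I F hF1 g D _ hD hX
    have hB0 : 0 ≤ B := (abs_nonneg _).trans (hB 0)
    have h3 : |∑ w ∈ KP (2 * N - 1), ∑ Q ∈ good N I w,
        F w * (Bop^[ex N I w Q] (Bop^[mN N] g)) (bp I w Q)| ≤ K * (T * B) := by
      refine (Finset.abs_sum_le_sum_abs _ _).trans ?_
      refine (Finset.sum_le_sum (g := fun _ => T * B) fun w hw => ?_).trans ?_
      · refine (Finset.abs_sum_le_sum_abs _ _).trans ?_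
        refine (Finset.sum_le_sum (g := fun _ => B) fun Q hQ => ?_).trans ?_
        · rw [abs_mul]
          have h1 := iter_bd hB (ex N I w Q) (bp I w Q)
          calc |F w| * |(Bop^[ex N I w Q] (Bop^[mN N] g)) (bp I w Q)| ≤ 1 * B :=
                mul_le_mul (hF1 w hw) h1 (abs_nonneg _) zero_le_one
            _ = B := one_mul B
        · rw [Finset.sum_const, nsmul_eq_mul]
          apply mul_le_mul_of_nonneg_right _ hB0
          have h4 := Finset.card_filter_le (box (2 * N - 1)).powerset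
            (fun Q => ¬ mm I cell (sel Q) w < mN N)
          rw [Finset.card_powerset] at h4
          rw [hT]
          unfold good
          exact_mod_cast h4
      · rw [Finset.sum_const, nsmul_eq_mul]
    rw [← hT] at h1
    have h4 : T * |∑ w ∈ KP (2 * N - 1), F w * g (ar w)| ≤
        T * (K * (B + C * Real.exp (-(c * N)) * D)) := by
      rw [← abs_of_pos hT0, ← abs_mul, abs_of_pos hT0, h1]
      refine (abs_add_le _ _).trans ((add_le_add h3 h2).trans (le_of_eq ?_))
      ring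
    exact le_of_mul_le_mul_left h4 hT0
  · intro hF0
    have hX := h N hN I hI
    have hcp := Fin.card_pos hN
    set K : ℝ := ((KP (2 * N - 1)).card : ℝ) with hK
    set T : ℝ := (2 : ℝ) ^ (box (2 * N - 1)).card with hT
    have hT0 : 0 < T := by positivity
    set ν : ℤ →₀ ℝ := ∑ w ∈ KP (2 * N - 1), ∑ Q ∈ good N I w, ∑ j ∈ Finset.range (ex N I w Q + 1),
      Finsupp.single (bp I w Q + (j : ℤ))
        (F w * (((ex N I w Q).choose j : ℝ) / 2 ^ (ex N I w Q)) / (K * T)) with hν
    have hval : ∀ φ : ℤ → ℝ, ν.sum (fun a p => p * φ a) =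
        (∑ w ∈ KP (2 * N - 1), ∑ Q ∈ good N I w, F w * (Bop^[ex N I w Q] φ) (bp I w Q)) / (K * T) := by
      intro φ
      have e1 : ν.sum (fun a p => p * φ a) = Finsupp.linearCombination ℝ φ ν := by
        rw [Finsupp.linearCombination_apply]
        rfl
      rw [e1, hν, map_sum, Finset.sum_div]
      refine Finset.sum_congr rfl fun w _ => ?_
      rw [map_sum, Finset.sum_div]
      refine Finset.sum_congr rfl fun Q _ => ?_
      rw [map_sum, rep]
      rw [Finset.sum_div, Finset.mul_sum, Finset.sum_div]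
      refine Finset.sum_congr rfl fun j _ => ?_
      rw [Finsupp.linearCombination_single, smul_eq_mul]
      ring
    refine ⟨ν, ?_, ?_, ?_⟩
    · intro a
      rw [hν, Finsupp.finsetSum_apply]
      refine Finset.sum_nonneg fun w hw => ?_
      rw [Finsupp.finsetSum_apply]
      refine Finset.sum_nonneg fun Q _ => ?_
      rw [Finsupp.finsetSum_apply]
      refine Finset.sum_nonneg fun j _ => ?_
      rw [Finsupp.single_apply]
      split_ifs
      · have := hF0 w hw
        positivity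
      · exact le_refl 0
    · have h1 : ν.sum (fun _ p => p) = ν.sum (fun a p => p * (fun _ => (1 : ℝ)) a) := by
        simp only [mul_one]
      rw [h1, hval, div_le_one (by positivity)]
      refine (Finset.sum_le_sum (g := fun _ => T) fun w hw => ?_).trans ?_
      · have h2 : ∀ Q ∈ good N I w, F w * (Bop^[ex N I w Q] (fun _ => (1 : ℝ))) (bp I w Q) ≤ 1 := by
          intro Q _
          have h3 := iter_bd (g := fun _ => (1 : ℝ)) (B := 1) (fun _ => by simp) (ex N I w Q) (bp I w Q)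
          have h4 := (abs_le.1 h3).2
          have h5 := (abs_le.1 (hF1 w hw)).2
          have h6 := hF0 w hw
          by_cases h7 : 0 ≤ Bop^[ex N I w Q] (fun _ => (1 : ℝ)) (bp I w Q)
          · exact mul_le_one₀ h5 h7 h4
          · have := mul_nonpos_of_nonneg_of_nonpos h6 (not_le.1 h7).le
            linarith
        refine (Finset.sum_le_sum h2).trans ?_
        rw [Finset.sum_const, nsmul_eq_mul, mul_one]
        have h4 := Finset.card_filter_le (box (2 * N - 1)).powerset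
          (fun Q => ¬ mm I cell (sel Q) w < mN N)
        rw [Finset.card_powerset] at h4
        rw [hT]
        unfold good
        exact_mod_cast h4
      · rw [Finset.sum_const, nsmul_eq_mul]
    · intro g hg
      have h1 := split_id N hN I hI F hF g
      have h2 := bad_bound N I F hF1 g 1 _ hg hX
      rw [← hT] at h1
      rw [hval]
      have h3 : K * ((∑ w ∈ KP (2 * N - 1), ∑ Q ∈ good N I w,
          F w * (Bop^[ex N I w Q] (Bop^[mN N] g)) (bp I w Q)) / (K * T)) =
          (∑ w ∈ KP (2 * N - 1), ∑ Q ∈ good N I w,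
          F w * (Bop^[ex N I w Q] (Bop^[mN N] g)) (bp I w Q)) / T := by
        field_simp
      rw [h3]
      have h4 : ∑ w ∈ KP (2 * N - 1), F w * g (ar w) =
          (T * ∑ w ∈ KP (2 * N - 1), F w * g (ar w)) / T := by field_simp
      rw [h4, h1, ← sub_div, add_sub_cancel_left, abs_div, abs_of_pos hT0, div_le_iff₀ hT0]
      refine h2.trans (le_of_eq ?_)
      ring

end

end Pool.Agent.T6.H92.SP
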