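import Pool.Agent.T6.H92.SP.Kern
import Pool.Agent.R54.AS.Final
import Pool.Agent.R54.AS.Flip
import Pool.Agent.R54.AS.Area

/-!
# The flips of free corners as a system of flips
-/

set_option autoImplicit false
set_option linter.unusedVariables false

namespace Pool.Agent.T6.H92.SP

open Finset Pool.Agent.H976R2 Pool.Agent.H976R2.Lip Pool.Agent.H924P Pool.Agent.H739K
  Pool.Agent.R54.AS
open Pool.Agent.R54.AS.AreaX (cell PP_two fv_square square vis_PP)
open scoped Classical

noncomputable section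

/-- the vertices of the corner lie on the square -/
theorem corner_square (w : List Dir) (i : ℕ) (hi : i + 1 < w.length)
    (hp : perp (lt w i) (lt w (i + 1))) (k : ℕ) (hk : k = i ∨ k = i + 1 ∨ k = i + 2) :
    ((PP w k).1 = (cell w i).1 ∨ (PP w k).1 = (cell w i).1 + 1) ∧
    ((PP w k).2 = (cell w i).2 ∨ (PP w k).2 = (cell w i).2 + 1) := by
  unfold cell
  have h1 : PP w (i + 1) = PP w i + dv (lt w i) := PP_succ w i (by omega)
  have h2 := PP_two w i hi
  rw [h2]
  have h3 : PP w k = PP w i ∨ PP w k = PP w i + dv (lt w i) ∨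
      PP w k = PP w i + dv (lt w i) + dv (lt w (i + 1)) := by
    rcases hk with rfl | rfl | rfl
    · left; rfl
    · right; left; exact h1
    · right; right; exact h2
  generalize PP w k = p at *
  clear h1 h2
  generalize PP w i = P at *
  generalize lt w i = d at *
  generalize lt w (i + 1) = e at *
  obtain ⟨x, y⟩ := P
  obtain ⟨a, b⟩ := p
  rcases h3 with h3 | h3 | h3
  · simp only [Prod.mk.injEq] at h3
    obtain ⟨rfl, rfl⟩ := h3
    cases e <;> cases d <;> simp [perp, dx, dy] at hp <;>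
      simp only [dv, dx, dy, Prod.mk_add_mk] <;> omega
  · cases e <;> cases d <;> simp [perp, dx, dy] at hp <;>
      simp only [dv, dx, dy, Prod.mk_add_mk, Prod.mk.injEq] at h3 ⊢ <;> omega
  · cases e <;> cases d <;> simp [perp, dx, dy] at hp <;>
      simp only [dv, dx, dy, Prod.mk_add_mk, Prod.mk.injEq] at h3 ⊢ <;> omega

theorem fc_iff (w : List Dir) (i : ℕ) : i ∈ fc w ↔
    i + 1 < w.length ∧ perp (lt w i) (lt w (i + 1)) ∧ ¬ vis w (fv w i) :=
  Pool.Agent.R54.AS.AreaX.mem_fc w i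

theorem nr_iff (w : List Dir) (i j : ℕ) : j ∈ nr w i ↔
    (j ∈ fc w ∧ ((i ≤ j + 1 ∧ j ≤ i + 1) ∨ fv w j = fv w i)) :=
  Pool.Agent.R715.ASFlip.mem_nr w i j

/-- two squares with a common vertex touch -/
theorem touch_of {c d p : ℤ × ℤ} (h1 : (p.1 = c.1 ∨ p.1 = c.1 + 1) ∧ (p.2 = c.2 ∨ p.2 = c.2 + 1))
    (h2 : (p.1 = d.1 ∨ p.1 = d.1 + 1) ∧ (p.2 = d.2 ∨ p.2 = d.2 + 1)) : touch c d := by
  unfold touch
  rw [abs_le, abs_le]
  obtain ⟨h3, h4⟩ := h1
  obtain ⟨h5, h6⟩ := h2
  refine ⟨⟨?_, ?_⟩, ?_, ?_⟩ <;> omega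

theorem cell_self (w : List Dir) (hw : Saw w) (i : ℕ) (h : i ∈ fc w) :
    cell (sw w i) i = cell w i := by
  obtain ⟨_, _, _, _, _, hP, _⟩ := Pool.Agent.R54.AS.flip w hw i h
  unfold cell
  rw [hP i (by omega), hP (i + 2) (by omega)]

theorem not_near (w : List Dir) (i j : ℕ) (hi : i ∈ fc w) (hj : j ∈ fc w)
    (h : ¬ touch (cell w i) (cell w j)) : ¬ ((i ≤ j + 1 ∧ j ≤ i + 1) ∨ fv w j = fv w i) := by
  obtain ⟨hi1, hip, hiv⟩ := (fc_iff w i).1 hi
  obtain ⟨hj1, hjp, hjv⟩ := (fc_iff w j).1 hj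
  rintro (h1 | h1)
  · apply h
    have h2 : j = i ∨ j = i + 1 ∨ i = j + 1 := by omega
    rcases h2 with rfl | rfl | rfl
    · exact touch_of (corner_square w j hi1 hip j (by omega)) (corner_square w j hi1 hip j (by omega))
    · exact touch_of (corner_square w i hi1 hip (i + 1) (by omega))
        (corner_square w (i + 1) hj1 hjp (i + 1) (by omega))
    · exact touch_of (corner_square w (j + 1) hi1 hip (j + 1) (by omega))
        (corner_square w j hj1 hjp (j + 1) (by omega))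
  · apply h
    have h2 := fv_square w j hj1 hjp
    rw [h1] at h2
    exact touch_of (fv_square w i hi1 hip) h2

theorem cell_far (w : List Dir) (hw : Saw w) (i j : ℕ) (hi : i ∈ fc w) (hj : j ∈ fc w)
    (h : ¬ touch (cell w i) (cell w j)) : cell (sw w i) j = cell w j := by
  have hn := not_near w i j hi hj h
  obtain ⟨_, _, _, _, _, hP, _⟩ := Pool.Agent.R54.AS.flip w hw i hi
  unfold cell
  rw [hP j (by omega), hP (j + 2) (by omega)]

theorem cell_inj (w : List Dir) (hw : Saw w) (i j : ℕ) (hi : i ∈ fc w) (hj : j ∈ fc w)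
    (h : cell w i = cell w j) : i = j := by
  obtain ⟨hi1, hip, hiv⟩ := (fc_iff w i).1 hi
  obtain ⟨hj1, hjp, hjv⟩ := (fc_iff w j).1 hj
  have key : ∀ k, (k = j ∨ k = j + 1 ∨ k = j + 2) → (k = i ∨ k = i + 1 ∨ k = i + 2) := by
    intro k hk
    have h1 := corner_square w j hj1 hjp k hk
    rw [← h] at h1
    have hkl : k ≤ w.length := by omega
    rcases square w i hi1 hip _ h1 with h2 | h2 | h2 | h2
    · left; exact PP_inj hw hkl (by omega) h2
    · right; left; exact PP_inj hw hkl (by omega) h2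
    · right; right; exact PP_inj hw hkl (by omega) h2
    · exfalso
      apply hiv
      rw [← h2]
      exact vis_PP w k
  have h1 := key j (by omega)
  have h2 := key (j + 2) (by omega)
  omega

theorem inst (N : ℕ) (hN : 2 ≤ N) :
    Flips (KP (2 * N - 1)) fc sw cell (fun w => (ar w : ℤ)) where
  mem := fun w hw i hi => by
    obtain ⟨hl, hs, hq⟩ := Fin.mem_KP.mp hw
    obtain ⟨h1, h2, h3, _⟩ := Pool.Agent.R54.AS.flip w hs i hi
    exact Fin.mem_KP.mpr ⟨by rw [h1, hl], h2, by rw [h3, hq]⟩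
  self := fun w hw i hi => by
    obtain ⟨hl, hs, hq⟩ := Fin.mem_KP.mp hw
    obtain ⟨_, _, _, h4, h5, _⟩ := Pool.Agent.R54.AS.flip w hs i hi
    exact h4
  inv := fun w hw i hi => by
    obtain ⟨hl, hs, hq⟩ := Fin.mem_KP.mp hw
    obtain ⟨_, _, _, h4, h5, _⟩ := Pool.Agent.R54.AS.flip w hs i hi
    exact h5
  cself := fun w hw i hi => cell_self w (Fin.mem_KP.mp hw).2.1 i hi
  cinj := fun w hw i hi j hj h => cell_inj w (Fin.mem_KP.mp hw).2.1 i j hi hj h
  pm := fun w hw i hi => by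
    obtain ⟨hl, hs, hq⟩ := Fin.mem_KP.mp hw
    have h := (areaS Pool.Agent.R54.AS.flip w (by omega) hs hq i hi).1
    unfold sg at h
    rcases h with h | h
    · left; show (ar (sw w i) : ℤ) = ar w + 1; linarith
    · right; show (ar (sw w i) : ℤ) = ar w - 1; linarith
  far := fun w hw i hi j hj hn => by
    obtain ⟨hl, hs, hq⟩ := Fin.mem_KP.mp hw
    have hjn : j ∉ nr w i := by
      rw [nr_iff]
      exact fun h' => not_near w i j hi hj hn h'.2
    obtain ⟨_, _, _, _, _, _, _, _, _, h10⟩ := Pool.Agent.R54.AS.flip w hs i hi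
    refine ⟨(h10 j hj hjn).1, cell_far w hs i j hi hj hn, ?_⟩
    have h := (areaS Pool.Agent.R54.AS.flip w (by omega) hs hq i hi).2 j hj hjn
    unfold sg at h
    exact h

end

end Pool.Agent.T6.H92.SP
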