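import Pool.Agent.T6.H92.SP.Orb

/-!
# The symmetric binomial kernel
-/

set_option autoImplicit false

namespace Pool.Agent.T6.H92.SP

open Finset

noncomputable section

theorem Bop_bd {g : ℤ → ℝ} {B : ℝ} (h : ∀ x, |g x| ≤ B) : ∀ x, |Bop g x| ≤ B := by
  intro x
  unfold Bop
  have h1 := abs_le.1 (h x)
  have h2 := abs_le.1 (h (x + 1))
  rw [abs_le]
  constructor <;> linarith [h1.1, h1.2, h2.1, h2.2]

theorem iter_bd {g : ℤ → ℝ} {B : ℝ} (h : ∀ x, |g x| ≤ B) (m : ℕ) : ∀ x, |Bop^[m] g x| ≤ B := by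
  induction m with
  | zero => exact h
  | succ m ih =>
    rw [Function.iterate_succ_apply']
    exact Bop_bd ih

theorem rep (m : ℕ) (h : ℤ → ℝ) : ∀ x : ℤ, Bop^[m] h x =
    (∑ j ∈ Finset.range (m + 1), (m.choose j : ℝ) * h (x + j)) / 2 ^ m := by
  induction m with
  | zero =>
    intro x
    simp
  | succ m ih =>
    intro x
    rw [Function.iterate_succ_apply']
    have e : Bop (Bop^[m] h) x = (Bop^[m] h x + Bop^[m] h (x + 1)) / 2 := rfl
    rw [e, ih x, ih (x + 1)]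
    have key : ∑ j ∈ Finset.range (m + 1 + 1), ((m + 1).choose j : ℝ) * h (x + j) =
        ∑ j ∈ Finset.range (m + 1), (m.choose j : ℝ) * h (x + j) +
        ∑ j ∈ Finset.range (m + 1), (m.choose j : ℝ) * h (x + 1 + j) := by
      rw [Finset.sum_range_succ']
      have e1 : ∀ j ∈ Finset.range (m + 1), (((m + 1).choose (j + 1) : ℕ) : ℝ) * h (x + ((j + 1 : ℕ) : ℤ)) =
          (m.choose j : ℝ) * h (x + 1 + j) + (m.choose (j + 1) : ℝ) * h (x + ((j + 1 : ℕ) : ℤ)) := by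
        intro j _
        rw [Nat.choose_succ_succ]
        have : x + ((j + 1 : ℕ) : ℤ) = x + 1 + j := by push_cast; ring
        rw [this]
        push_cast
        ring
      rw [Finset.sum_congr rfl e1, Finset.sum_add_distrib]
      have e2 : ∑ j ∈ Finset.range (m + 1 + 1), (m.choose j : ℝ) * h (x + j) =
          ∑ j ∈ Finset.range (m + 1), (m.choose (j + 1) : ℝ) * h (x + ((j + 1 : ℕ) : ℤ)) +
          (m.choose 0 : ℝ) * h (x + ((0 : ℕ) : ℤ)) := Finset.sum_range_succ' _ _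
      have e3 : ∑ j ∈ Finset.range (m + 1 + 1), (m.choose j : ℝ) * h (x + j) =
          ∑ j ∈ Finset.range (m + 1), (m.choose j : ℝ) * h (x + j) := by
        rw [Finset.sum_range_succ, Nat.choose_succ_self]
        simp
      rw [← e3, e2]
      simp only [Nat.choose_zero_right]
      ring
    rw [key, pow_succ]
    field_simp

/-- the oscillations -/
theorem iter_cos (θ φ : ℝ) (m : ℕ) : ∀ x : ℤ, Bop^[m] (fun x : ℤ => Real.cos (θ * x + φ)) x =
    Real.cos (θ / 2) ^ m * Real.cos (θ * x + φ + m * (θ / 2)) := by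
  induction m with
  | zero =>
    intro x
    simp
  | succ m ih =>
    intro x
    rw [Function.iterate_succ_apply']
    have e : Bop (Bop^[m] (fun x : ℤ => Real.cos (θ * x + φ))) x =
        (Bop^[m] (fun x : ℤ => Real.cos (θ * x + φ)) x +
          Bop^[m] (fun x : ℤ => Real.cos (θ * x + φ)) (x + 1)) / 2 := rfl
    rw [e, ih x, ih (x + 1)]
    have h1 : Real.cos (θ * x + φ + m * (θ / 2)) =
        Real.cos ((θ * x + φ + (m + 1 : ℝ) * (θ / 2)) - θ / 2) := by congr 1; ring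
    have h2 : Real.cos (θ * ((x + 1 : ℤ) : ℝ) + φ + m * (θ / 2)) =
        Real.cos ((θ * x + φ + (m + 1 : ℝ) * (θ / 2)) + θ / 2) := by
      congr 1; push_cast; ring
    have h3 : Real.cos (θ * x + φ + ((m + 1 : ℕ) : ℝ) * (θ / 2)) =
        Real.cos (θ * x + φ + (m + 1 : ℝ) * (θ / 2)) := by
      congr 1; push_cast; ring
    rw [h1, h2, h3]
    generalize θ * (x : ℝ) + φ + (m + 1 : ℝ) * (θ / 2) = a
    rw [Real.cos_sub a (θ / 2), Real.cos_add a (θ / 2), pow_succ]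
    ring

/-- the difference operator -/
def Dop (g : ℤ → ℝ) : ℤ → ℝ := fun x => g (x + 1) - g x

theorem Bop_Dop (g : ℤ → ℝ) : Bop (Dop g) = Dop (Bop g) := by
  funext x
  unfold Bop Dop
  ring

theorem iter_Dop (m : ℕ) (g : ℤ → ℝ) : Bop^[m] (Dop g) = Dop (Bop^[m] g) := by
  induction m with
  | zero => rfl
  | succ m ih => rw [Function.iterate_succ_apply', ih, Bop_Dop, Function.iterate_succ_apply']

theorem iter_quad (m : ℕ) (c : ℝ) : ∀ x : ℤ, Bop^[m] (fun y : ℤ => (2 * (y : ℝ) + c) ^ 2) x =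
    (2 * (x : ℝ) + c + m) ^ 2 + m := by
  induction m with
  | zero =>
    intro x
    simp
  | succ m ih =>
    intro x
    rw [Function.iterate_succ_apply']
    have e : Bop (Bop^[m] (fun y : ℤ => (2 * (y : ℝ) + c) ^ 2)) x =
        (Bop^[m] (fun y : ℤ => (2 * (y : ℝ) + c) ^ 2) x +
          Bop^[m] (fun y : ℤ => (2 * (y : ℝ) + c) ^ 2) (x + 1)) / 2 := rfl
    rw [e, ih x, ih (x + 1)]
    push_cast
    ring

/-- the variance of the symmetric binomial law -/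
theorem variance (M : ℕ) : ∑ j ∈ Finset.range (M + 1), (M.choose j : ℝ) * (2 * (j : ℝ) - (M : ℝ)) ^ 2 =
    (M : ℝ) * (2 : ℝ) ^ M := by
  have h1 := iter_quad M (-(M : ℝ)) 0
  rw [rep] at h1
  have h2 : (2 : ℝ) ^ M ≠ 0 := by positivity
  rw [div_eq_iff h2] at h1
  have e : ∀ j ∈ Finset.range (M + 1), (M.choose j : ℝ) *
      (2 * (((0 + (j : ℤ) : ℤ)) : ℝ) + -(M : ℝ)) ^ 2 = (M.choose j : ℝ) * (2 * (j : ℝ) - (M : ℝ)) ^ 2 := by
    intro j _
    push_cast
    ring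
  rw [Finset.sum_congr rfl e] at h1
  rw [h1]
  push_cast
  ring

theorem sum_choose (M : ℕ) : ∑ j ∈ Finset.range (M + 1), (M.choose j : ℝ) = 2 ^ M := by
  have := Nat.sum_range_choose M
  exact_mod_cast this

/-- the difference identity -/
theorem diff_id (m : ℕ) (h : ℤ → ℝ) (x : ℤ) :
    ((m + 1 : ℕ) : ℝ) * 2 ^ m * Bop^[m] (Dop h) x =
      ∑ j ∈ Finset.range (m + 1 + 1), ((m + 1).choose j : ℝ) * (2 * (j : ℝ) - ((m + 1 : ℕ) : ℝ)) *
        h (x + j) := by
  rw [rep]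
  have h2 : (2 : ℝ) ^ m ≠ 0 := by positivity
  have e0 : ((m + 1 : ℕ) : ℝ) * 2 ^ m *
      ((∑ j ∈ Finset.range (m + 1), (m.choose j : ℝ) * Dop h (x + j)) / 2 ^ m) =
      ∑ j ∈ Finset.range (m + 1), ((m + 1 : ℕ) : ℝ) * (m.choose j : ℝ) * h (x + ((j + 1 : ℕ) : ℤ)) -
      ∑ j ∈ Finset.range (m + 1), ((m + 1 : ℕ) : ℝ) * (m.choose j : ℝ) * h (x + j) := by
    have : ((m + 1 : ℕ) : ℝ) * 2 ^ m *
      ((∑ j ∈ Finset.range (m + 1), (m.choose j : ℝ) * Dop h (x + j)) / 2 ^ m) =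
      ((m + 1 : ℕ) : ℝ) * (∑ j ∈ Finset.range (m + 1), (m.choose j : ℝ) * Dop h (x + j)) := by
      field_simp
    rw [this, Finset.mul_sum, ← Finset.sum_sub_distrib]
    refine Finset.sum_congr rfl fun j _ => ?_
    have e1 : x + ((j + 1 : ℕ) : ℤ) = x + j + 1 := by push_cast; ring
    rw [e1]
    unfold Dop
    ring
  rw [e0]
  have eA : ∑ j ∈ Finset.range (m + 1 + 1), ((m + 1).choose j : ℝ) * (j : ℝ) * h (x + j) =
      ∑ j ∈ Finset.range (m + 1), ((m + 1 : ℕ) : ℝ) * (m.choose j : ℝ) * h (x + ((j + 1 : ℕ) : ℤ)) := by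
    rw [Finset.sum_range_succ']
    have e1 : ∀ j ∈ Finset.range (m + 1),
        (((m + 1).choose (j + 1) : ℕ) : ℝ) * ((j + 1 : ℕ) : ℝ) * h (x + ((j + 1 : ℕ) : ℤ)) =
        ((m + 1 : ℕ) : ℝ) * (m.choose j : ℝ) * h (x + ((j + 1 : ℕ) : ℤ)) := by
      intro j _
      have h3 := Nat.add_one_mul_choose_eq m j
      have h4 : ((m + 1 : ℕ) : ℝ) * (m.choose j : ℝ) =
          (((m + 1).choose (j + 1) : ℕ) : ℝ) * ((j + 1 : ℕ) : ℝ) := by exact_mod_cast h3
      rw [h4]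
    rw [Finset.sum_congr rfl e1]
    simp
  have eB : ∑ j ∈ Finset.range (m + 1 + 1), ((m + 1).choose j : ℝ) *
      (((m + 1 : ℕ) : ℝ) - j) * h (x + j) =
      ∑ j ∈ Finset.range (m + 1), ((m + 1 : ℕ) : ℝ) * (m.choose j : ℝ) * h (x + j) := by
    rw [Finset.sum_range_succ]
    have e1 : ∀ j ∈ Finset.range (m + 1),
        (((m + 1).choose j : ℕ) : ℝ) * (((m + 1 : ℕ) : ℝ) - j) * h (x + j) =
        ((m + 1 : ℕ) : ℝ) * (m.choose j : ℝ) * h (x + j) := by
      intro j hj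
      rw [Finset.mem_range] at hj
      have h3 := Nat.choose_mul_succ_eq m j
      have h4 : ((m.choose j * (m + 1) : ℕ) : ℝ) = (((m + 1).choose j * (m + 1 - j) : ℕ) : ℝ) := by
        rw [h3]
      rw [Nat.cast_mul, Nat.cast_mul, Nat.cast_sub (by omega)] at h4
      rw [← h4]
      ring
    rw [Finset.sum_congr rfl e1]
    simp
  rw [← eA, ← eB, ← Finset.sum_sub_distrib]
  refine Finset.sum_congr rfl fun j _ => ?_
  ring

/-- **smoothing** -/
theorem smooth (m : ℕ) {h : ℤ → ℝ} {B : ℝ} (hB : 0 ≤ B) (hh : ∀ x, |h x| ≤ B) (x : ℤ) :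
    |Bop^[m] (Dop h) x| ≤ 2 / Real.sqrt ((m + 1 : ℕ) : ℝ) * B := by
  set M : ℕ := m + 1 with hM
  have hMr : (0 : ℝ) < (M : ℝ) := by
    have : 0 < M := by omega
    exact_mod_cast this
  have h1 := diff_id m h x
  rw [← hM] at h1
  have h2 : |∑ j ∈ Finset.range (M + 1), (M.choose j : ℝ) * (2 * (j : ℝ) - (M : ℝ)) * h (x + j)| ≤
      (∑ j ∈ Finset.range (M + 1), (M.choose j : ℝ) * |2 * (j : ℝ) - (M : ℝ)|) * B := by
    rw [Finset.sum_mul]
    refine (Finset.abs_sum_le_sum_abs _ _).trans (Finset.sum_le_sum fun j _ => ?_)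
    rw [abs_mul, abs_mul, abs_of_nonneg (Nat.cast_nonneg _)]
    exact mul_le_mul_of_nonneg_left (hh _) (by positivity)
  have h3 : (∑ j ∈ Finset.range (M + 1), (M.choose j : ℝ) * |2 * (j : ℝ) - (M : ℝ)|) ^ 2 ≤
      (2 : ℝ) ^ M * ((M : ℝ) * (2 : ℝ) ^ M) := by
    have hcs := Finset.sum_mul_sq_le_sq_mul_sq (Finset.range (M + 1))
      (fun j => Real.sqrt (M.choose j : ℝ))
      (fun j => Real.sqrt (M.choose j : ℝ) * |2 * (j : ℝ) - (M : ℝ)|)
    have e1 : ∑ j ∈ Finset.range (M + 1), Real.sqrt (M.choose j : ℝ) *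
        (Real.sqrt (M.choose j : ℝ) * |2 * (j : ℝ) - (M : ℝ)|) =
        ∑ j ∈ Finset.range (M + 1), (M.choose j : ℝ) * |2 * (j : ℝ) - (M : ℝ)| := by
      refine Finset.sum_congr rfl fun j _ => ?_
      rw [← mul_assoc, Real.mul_self_sqrt (Nat.cast_nonneg _)]
    have e2 : ∑ j ∈ Finset.range (M + 1), Real.sqrt (M.choose j : ℝ) ^ 2 = (2 : ℝ) ^ M := by
      rw [← sum_choose M]
      refine Finset.sum_congr rfl fun j _ => ?_
      rw [Real.sq_sqrt (Nat.cast_nonneg _)]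
    have e3 : ∑ j ∈ Finset.range (M + 1),
        (Real.sqrt (M.choose j : ℝ) * |2 * (j : ℝ) - (M : ℝ)|) ^ 2 = (M : ℝ) * (2 : ℝ) ^ M := by
      rw [← variance M]
      refine Finset.sum_congr rfl fun j _ => ?_
      rw [mul_pow, Real.sq_sqrt (Nat.cast_nonneg _), sq_abs]
    rw [e1, e2, e3] at hcs
    exact hcs
  have h4 : (∑ j ∈ Finset.range (M + 1), (M.choose j : ℝ) * |2 * (j : ℝ) - (M : ℝ)|) ≤
      2 ^ M * Real.sqrt M := by
    refine abs_le_of_sq_le_sq' ?_ (by positivity) |>.2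
    rw [mul_pow, Real.sq_sqrt hMr.le]
    refine h3.trans (le_of_eq ?_)
    ring
  rw [← h1, abs_mul, abs_of_pos (by positivity)] at h2
  have h5 := h2.trans (mul_le_mul_of_nonneg_right h4 hB)
  have h6 : (2 : ℝ) ^ M = 2 * 2 ^ m := by rw [hM, pow_succ]; ring
  rw [h6] at h5
  have hs : 0 < Real.sqrt M := Real.sqrt_pos.2 hMr
  have h7 : (M : ℝ) = Real.sqrt M * Real.sqrt M := (Real.mul_self_sqrt hMr.le).symm
  have h8 : (0 : ℝ) < 2 ^ m * Real.sqrt M := by positivity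
  have h9 : (2 ^ m * Real.sqrt M) * (Real.sqrt M * |Bop^[m] (Dop h) x|) ≤
      (2 ^ m * Real.sqrt M) * (2 * B) := by
    calc (2 ^ m * Real.sqrt M) * (Real.sqrt M * |Bop^[m] (Dop h) x|) =
        (M : ℝ) * 2 ^ m * |Bop^[m] (Dop h) x| := by
          conv_rhs => rw [h7]
          ring
      _ ≤ 2 * 2 ^ m * Real.sqrt M * B := h5
      _ = _ := by ring
  have h10 := le_of_mul_le_mul_left h9 h8
  rw [div_mul_eq_mul_div, le_div_iff₀ hs]
  linarith

/-- smoothing of higher order -/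
theorem smooth_iter (m k : ℕ) : ∀ {h : ℤ → ℝ} {B : ℝ}, 0 ≤ B → (∀ x, |h x| ≤ B) → ∀ x : ℤ,
    |Bop^[k * m] (Dop^[k] h) x| ≤ (2 / Real.sqrt ((m + 1 : ℕ) : ℝ)) ^ k * B := by
  induction k with
  | zero =>
    intro h B _ hh x
    simpa using hh x
  | succ k ih =>
    intro h B hB hh x
    have e1 : (k + 1) * m = k * m + m := by ring
    have e2 : Bop^[(k + 1) * m] (Dop^[k + 1] h) = Bop^[k * m] (Dop^[k] (Bop^[m] (Dop h))) := by
      rw [e1, Function.iterate_add_apply]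
      congr 1
      rw [Function.iterate_succ_apply]
      have : ∀ (k : ℕ) (g : ℤ → ℝ), Bop^[m] (Dop^[k] g) = Dop^[k] (Bop^[m] g) := by
        intro k
        induction k with
        | zero => intro g; rfl
        | succ k ih2 =>
          intro g
          rw [Function.iterate_succ_apply', iter_Dop, ih2, Function.iterate_succ_apply']
      exact this k (Dop h)
    rw [e2]
    have h1 := ih (h := Bop^[m] (Dop h)) (B := 2 / Real.sqrt ((m + 1 : ℕ) : ℝ) * B)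
      (by positivity) (fun y => smooth m hB hh y) x
    refine h1.trans (le_of_eq ?_)
    rw [pow_succ]
    ring

end

end Pool.Agent.T6.H92.SP
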