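import Pool.Agent.T6.H92.SP.Core
import Pool.Agent.T6.H92.SP.Cons

/-!
# The law of the area of self-avoiding polygons: loops
-/

set_option autoImplicit false
set_option linter.unusedVariables false

namespace Pool.Agent.T6.H92.SP

open Finset Pool.Agent.H976R2 Pool.Agent.H976R2.Lip Pool.Agent.H924P Pool.Agent.H739K
  Pool.Agent.R54.AS
open Pool.Agent.R54.AS.AreaX (cell)
open Pool.Agent.H739K.F4x (me_eq ar_eq len_of_KP)
open scoped Classical

noncomputable section

theorem me_F (N : ℕ) (hN : 2 ≤ N) (F : (ZMod (2 * N) → ℤ × ℤ) → ℝ) (g : ℤ → ℝ) :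
    me N (fun f => F f * g (area (2 * N) f : ℤ)) =
      (∑ w ∈ KP (2 * N - 1), F (lp (2 * N) w) * g (ar w)) / ((KP (2 * N - 1)).card : ℝ) := by
  rw [me_eq CONV_proof hN]
  congr 1
  refine Finset.sum_congr rfl fun w hw => ?_
  rw [ar_eq hN hw]

theorem mN_ge (N : ℕ) : (N : ℝ) / 1000000 - 1 ≤ (mN N : ℝ) := by
  unfold mN
  have h : N < 1000000 * (N / 1000000 + 1) := Nat.lt_mul_div_succ N (by norm_num)
  have h2 : (N : ℝ) < 1000000 * (((N / 1000000 : ℕ) : ℝ) + 1) := by exact_mod_cast h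
  linarith

theorem lp_close' {N : ℕ} (hN : 2 ≤ N) {w : List Dir} (hw : w ∈ KP (2 * N - 1))
    {i : ℕ} (hi : i ∈ fc w) (j : ZMod (2 * N)) (hj : j ≠ ((i + 1 : ℕ) : ZMod (2 * N))) :
    H739K.lp (2 * N) (sw w i) j = H739K.lp (2 * N) w j := by
  obtain ⟨hl, hs, hq⟩ := Fin.mem_KP.mp hw
  obtain ⟨_, _, _, _, _, hP, _⟩ := Pool.Agent.R54.AS.flip w hs i hi
  have : NeZero (2 * N) := ⟨by omega⟩
  have h1 : j.val ≠ i + 1 := by
    intro h
    apply hj
    rw [← h, ZMod.natCast_zmod_val]
  exact hP j.val h1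

/-- the free corners outside of `J` -/
def IJ (N : ℕ) (J : (ZMod (2 * N) → ℤ × ℤ) → Finset (ZMod (2 * N))) (w : List Dir) : Finset ℕ :=
  (fc w).filter (fun i => ((i + 1 : ℕ) : ZMod (2 * N)) ∉ J (H739K.lp (2 * N) w))

theorem admJ (N : ℕ) (hN : 2 ≤ N) (J : (ZMod (2 * N) → ℤ × ℤ) → Finset (ZMod (2 * N)))
    (hJc : ∀ f, IsLoop (2 * N) f → 100 * (J f).card ≤ N)
    (hJ : ∀ f f' : ZMod (2 * N) → ℤ × ℤ, IsLoop (2 * N) f → IsLoop (2 * N) f' →
      (∃ k ∉ J f, ∀ j, j ≠ k → f j = f' j) → J f = J f') : Adm N (IJ N J) := by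
  have hin := inst N hN
  have hloop : ∀ w ∈ KP (2 * N - 1), IsLoop (2 * N) (H739K.lp (2 * N) w) := (CONV_proof N hN).2.2
  have hsub : ∀ w, IJ N J w ⊆ fc w := fun w => Finset.filter_subset _ _
  have hJs : ∀ w ∈ KP (2 * N - 1), ∀ i ∈ IJ N J w,
      J (H739K.lp (2 * N) w) = J (H739K.lp (2 * N) (sw w i)) := by
    intro w hw i hi
    have hi' := hi
    unfold IJ at hi'
    rw [mem_filter] at hi'
    exact hJ _ _ (hloop w hw) (hloop _ (hin.mem w hw i hi'.1))
      ⟨_, hi'.2, fun j hj => (lp_close' hN hw hi'.1 j hj).symm⟩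
  constructor
  · constructor
    · exact fun w hw i hi => hin.mem w hw i (hsub w hi)
    · intro w hw i hi
      have h1 := hJs w hw i hi
      unfold IJ at hi ⊢
      rw [mem_filter] at hi ⊢
      rw [← h1]
      exact ⟨hin.self w hw i hi.1, hi.2⟩
    · exact fun w hw i hi => hin.inv w hw i (hsub w hi)
    · exact fun w hw i hi => hin.cself w hw i (hsub w hi)
    · exact fun w hw i hi j hj h => hin.cinj w hw i (hsub w hi) j (hsub w hj) h
    · exact fun w hw i hi => hin.pm w hw i (hsub w hi)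
    · intro w hw i hi j hj hn
      obtain ⟨h1, h2, h3⟩ := hin.far w hw i (hsub w hi) j (hsub w hj) hn
      refine ⟨?_, h2, h3⟩
      have h4 := hJs w hw i hi
      unfold IJ at hj ⊢
      rw [mem_filter] at hj ⊢
      rw [← h4]
      exact ⟨h1, hj.2⟩
  · exact fun w _ => hsub w
  · intro w hw
    have h1 : (fc w).card = (IJ N J w).card + ((fc w).filter
        (fun i => ¬ ((i + 1 : ℕ) : ZMod (2 * N)) ∉ J (H739K.lp (2 * N) w))).card := by
      unfold IJ
      exact (Finset.card_filter_add_card_filter_not _).symm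
    have h2 : ((fc w).filter
        (fun i => ¬ ((i + 1 : ℕ) : ZMod (2 * N)) ∉ J (H739K.lp (2 * N) w))).card ≤
        (J (H739K.lp (2 * N) w)).card := by
      refine Finset.card_le_card_of_injOn (fun i => ((i + 1 : ℕ) : ZMod (2 * N))) ?_ ?_
      · intro i hi
        rw [Finset.mem_coe, mem_filter, not_not] at hi
        exact hi.2
      · intro i hi j hj hij
        rw [Finset.mem_coe, mem_filter, fc_iff] at hi hj
        have hl := len_of_KP hw
        have h5 := congrArg ZMod.val hij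
        simp only at h5
        rw [ZMod.val_natCast_of_lt (by omega), ZMod.val_natCast_of_lt (by omega)] at h5
        omega
    have h3 := hJc _ (hloop w hw)
    omega

/-- everything -/
theorem all : ∃ C c : ℝ, 0 < C ∧ 0 < c ∧ ∀ N : ℕ, 2 ≤ N →
    ∀ (F : (ZMod (2 * N) → ℤ × ℤ) → ℝ) (J : (ZMod (2 * N) → ℤ × ℤ) → Finset (ZMod (2 * N))),
    (∀ f, IsLoop (2 * N) f → |F f| ≤ 1 ∧ 100 * (J f).card ≤ N) →
    (∀ f f' : ZMod (2 * N) → ℤ × ℤ, IsLoop (2 * N) f → IsLoop (2 * N) f' →
      (∃ k ∉ J f, ∀ j, j ≠ k → f j = f' j) → F f = F f' ∧ J f = J f') →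
    ((∀ f, IsLoop (2 * N) f → 0 ≤ F f) → ∃ ν : ℤ →₀ ℝ, (∀ a, 0 ≤ ν a) ∧ ν.sum (fun _ p => p) ≤ 1 ∧
      ∀ g : ℤ → ℝ, (∀ x, |g x| ≤ 1) →
        |me N (fun f => F f * g (area (2 * N) f : ℤ)) -
          ν.sum (fun a p => p * ∑ j ∈ Finset.range (N / 1000000 + 1),
            ((N / 1000000).choose j : ℝ) / 2 ^ (N / 1000000) * g (a + j))| ≤
          C * Real.exp (-(c * N))) ∧
    (∀ θ φ : ℝ, |θ| ≤ Real.pi →
      |me N (fun f => F f * Real.cos (θ * (area (2 * N) f : ℝ) + φ))| ≤
        C * Real.exp (-(c * N * θ ^ 2))) ∧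
    (∀ q : ℕ, 1 ≤ q → ∀ r : ℕ,
      |me N (fun f => F f * if area (2 * N) f ≡ r [MOD q] then 1 else 0) - me N F / q| ≤
        C * Real.exp (-(c * N / (q : ℝ) ^ 2))) ∧
    (∀ (k : ℕ) (g : ℤ → ℝ), (∀ x, |g x| ≤ 1) →
      |me N (fun f => F f * Dop^[k] g (area (2 * N) f : ℤ))| ≤
        C * Real.sqrt (C * k / N) ^ k) ∧
    (∀ (k : ℕ) (a : ℤ),
      |Dop^[k] (fun a : ℤ => me N (fun f => F f * if (area (2 * N) f : ℤ) = a then 1 else 0)) a| ≤
        C * Real.sqrt (C * (k + 1) / N) ^ (k + 1)) := by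
  obtain ⟨C, c, hC, hc, h⟩ := core
  set C' : ℝ := 4000000 + 2 / c + 1 * C + Real.exp 2 + 2 with hC'
  have hC'0 : 0 < C' := by positivity
  set c' : ℝ := min (c / 10) (1 / 20000000) with hc'
  have hc'0 : 0 < c' := by positivity
  have hc'1 : c' ≤ c / 10 := min_le_left _ _
  have hc'2 : c' ≤ 1 / 20000000 := min_le_right _ _
  refine ⟨C', c', hC'0, hc'0, fun N hN F J hFJ1 hFJ => ?_⟩
  have hF1 : ∀ f, IsLoop (2 * N) f → |F f| ≤ 1 := fun f hf => (hFJ1 f hf).1
  have hadm : Adm N (IJ N J) := admJ N hN J (fun f hf => (hFJ1 f hf).2)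
    (fun f f' h1 h2 h3 => (hFJ f f' h1 h2 h3).2)
  have hcp := Fin.card_pos hN
  have hNr : (2 : ℝ) ≤ N := by exact_mod_cast hN
  have hm := mN_ge N
  set G : List Dir → ℝ := fun w => F (lp (2 * N) w) with hG
  have hloop : ∀ w ∈ KP (2 * N - 1), IsLoop (2 * N) (lp (2 * N) w) := (CONV_proof N hN).2.2
  have hmem : ∀ w ∈ KP (2 * N - 1), ∀ i ∈ fc w, sw w i ∈ KP (2 * N - 1) := (inst N hN).mem
  have hG1 : ∀ w ∈ KP (2 * N - 1), |G w| ≤ 1 := fun w hw => hF1 _ (hloop w hw)
  have hGi : ∀ w ∈ KP (2 * N - 1), ∀ i ∈ IJ N J w, G (sw w i) = G w := by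
    intro w hw i hi
    have hi' := hi
    unfold IJ at hi'
    rw [mem_filter] at hi'
    exact (hFJ _ _ (hloop w hw) (hloop _ (hmem w hw i hi'.1))
      ⟨_, hi'.2, fun j hj => (lp_close' hN hw hi'.1 j hj).symm⟩).1.symm
  obtain ⟨hcore, hmix⟩ := h N hN (IJ N J) hadm G hG1 hGi
  have hE : ∀ (g : ℤ → ℝ) (B D : ℝ), (∀ x, |g x| ≤ D) → (∀ x, |Bop^[mN N] g x| ≤ B) →
      |me N (fun f => F f * g (area (2 * N) f : ℤ))| ≤ B + C * Real.exp (-(c * N)) * D := by
    intro g B D h1 h2
    rw [me_F N hN, abs_div, abs_of_pos hcp, div_le_iff₀ hcp]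
    refine (hcore g B D h1 h2).trans (le_of_eq ?_)
    ring
  have hX0 : 0 < Real.exp (-(c * N)) := Real.exp_pos _
  have hCC : C ≤ C' := by
    rw [hC']
    have : 0 < 2 / c := by positivity
    have := Real.exp_pos 2
    linarith
  have hdiff : ∀ (k : ℕ) (g : ℤ → ℝ), (∀ x, |g x| ≤ 1) →
      |me N (fun f => F f * Dop^[k] g (area (2 * N) f : ℤ))| ≤
        C' * Real.sqrt (C' * k / N) ^ k := by
    intro k g hg
    rcases Nat.eq_zero_or_pos k with rfl | hk
    · have h1 := hE g 1 1 hg (iter_bd hg _)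
      have h2 : Real.exp (-(c * N)) ≤ 1 := by
        rw [Real.exp_le_one_iff]
        have : 0 ≤ c * N := by positivity
        linarith
      simp only [Function.iterate_zero, id_eq, pow_zero, mul_one]
      refine h1.trans ?_
      have h3 : C * Real.exp (-(c * N)) ≤ C := by nlinarith
      rw [hC']
      have : 0 < 2 / c := by positivity
      have := Real.exp_pos 2
      linarith
    · have h1 := hE (Dop^[k] g) (Real.sqrt (4 * (1000000 : ℕ) * k / N) ^ k) (2 ^ k * 1)
        (Dop_bd k hg) (diffs 1000000 N k (by norm_num) (by omega) hk hg)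
      refine h1.trans ?_
      have hkr : (0 : ℝ) < k := by exact_mod_cast hk
      have h2 : Real.sqrt (4 * (1000000 : ℕ) * k / N) ^ k ≤ Real.sqrt (C' * k / N) ^ k := by
        apply pow_le_pow_left₀ (Real.sqrt_nonneg _)
        apply Real.sqrt_le_sqrt
        apply div_le_div_of_nonneg_right _ (by positivity)
        apply mul_le_mul_of_nonneg_right _ hkr.le
        rw [hC']
        push_cast
        have : 0 < 2 / c := by positivity
        have := Real.exp_pos 2
        linarith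
      have h3 : Real.exp (-(c * N)) * 2 ^ k ≤ Real.sqrt (C' * k / N) ^ k := by
        apply exp_vs c C' hc _ N k (by omega) hk
        rw [hC']
        have := Real.exp_pos 2
        linarith
      have hy : 0 ≤ Real.sqrt (C' * k / N) ^ k := by positivity
      calc Real.sqrt (4 * (1000000 : ℕ) * k / N) ^ k + C * Real.exp (-(c * N)) * (2 ^ k * 1) =
          Real.sqrt (4 * (1000000 : ℕ) * k / N) ^ k + C * (Real.exp (-(c * N)) * 2 ^ k) := by ring
        _ ≤ Real.sqrt (C' * k / N) ^ k + C * Real.sqrt (C' * k / N) ^ k := by gcongr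
        _ = (1 + C) * Real.sqrt (C' * k / N) ^ k := by ring
        _ ≤ C' * Real.sqrt (C' * k / N) ^ k := by
          apply mul_le_mul_of_nonneg_right _ hy
          rw [hC']
          have : 0 < 2 / c := by positivity
          have := Real.exp_pos 2
          linarith
  refine ⟨?_, ?_, ?_, hdiff, ?_⟩
  · intro hF0
    obtain ⟨ν, h1, h2, h3⟩ := hmix (fun w hw => hF0 _ (hloop w hw))
    refine ⟨ν, h1, h2, fun g hg => ?_⟩
    have h4 := h3 g hg
    have e1 : ν.sum (fun a p => p * ∑ j ∈ Finset.range (N / 1000000 + 1),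
            ((N / 1000000).choose j : ℝ) / 2 ^ (N / 1000000) * g (a + j)) =
        ν.sum (fun a p => p * (Bop^[mN N] g) a) := by
      congr 1
      funext a p
      rw [rep]
      congr 1
      unfold mN
      rw [Finset.sum_div]
      refine Finset.sum_congr rfl fun j _ => ?_
      ring
    rw [e1, me_F N hN]
    have e2 : (∑ w ∈ KP (2 * N - 1), F (lp (2 * N) w) * g (ar w)) / ((KP (2 * N - 1)).card : ℝ) -
        ν.sum (fun a p => p * (Bop^[mN N] g) a) =
        (∑ w ∈ KP (2 * N - 1), F (lp (2 * N) w) * g (ar w) - ((KP (2 * N - 1)).card : ℝ) *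
        ν.sum (fun a p => p * (Bop^[mN N] g) a)) / ((KP (2 * N - 1)).card : ℝ) := by
      field_simp
    rw [e2, abs_div, abs_of_pos hcp, div_le_iff₀ hcp]
    refine h4.trans ?_
    have h5 : Real.exp (-(c * N)) ≤ Real.exp (-(c' * N)) := by
      apply Real.exp_le_exp.2
      nlinarith
    calc ((KP (2 * N - 1)).card : ℝ) * (C * Real.exp (-(c * N))) ≤
        ((KP (2 * N - 1)).card : ℝ) * (C' * Real.exp (-(c' * N))) := by gcongr
      _ = _ := by ring
  · intro θ φ hθ
    have h1 := hE (fun x : ℤ => Real.cos (θ * x + φ)) (Real.exp (-(mN N * θ ^ 2 / 20))) 1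
      (fun x => Real.abs_cos_le_one _) (osc (mN N) φ hθ)
    have e1 : (fun f : ZMod (2 * N) → ℤ × ℤ => F f * Real.cos (θ * (area (2 * N) f : ℝ) + φ)) =
        fun f => F f * (fun x : ℤ => Real.cos (θ * x + φ)) (area (2 * N) f : ℤ) := by
      funext f
      simp
    rw [e1]
    refine h1.trans ?_
    have hpi := Real.pi_lt_d2
    have hpi0 := Real.pi_pos
    have hθ2 : θ ^ 2 ≤ 10 := by
      have : |θ| ^ 2 ≤ Real.pi ^ 2 := pow_le_pow_left₀ (abs_nonneg _) hθ 2
      rw [sq_abs] at this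
      nlinarith
    have hθ0 : 0 ≤ θ ^ 2 := sq_nonneg θ
    have h2 : Real.exp (-(mN N * θ ^ 2 / 20)) ≤ Real.exp 2 * Real.exp (-(c' * N * θ ^ 2)) := by
      rw [← Real.exp_add]
      apply Real.exp_le_exp.2
      have h3 : ((N : ℝ) / 1000000 - 1) * θ ^ 2 ≤ mN N * θ ^ 2 :=
        mul_le_mul_of_nonneg_right hm hθ0
      have h4 : c' * (N * θ ^ 2) ≤ 1 / 20000000 * (N * θ ^ 2) :=
        mul_le_mul_of_nonneg_right hc'2 (by positivity)
      linarith
    have h3 : Real.exp (-(c * N)) ≤ Real.exp (-(c' * N * θ ^ 2)) := by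
      apply Real.exp_le_exp.2
      have h5 : c' * N * θ ^ 2 ≤ c' * N * 10 := by gcongr
      have h6 : c' * N ≤ c / 10 * N := by gcongr
      linarith
    have hY0 : 0 < Real.exp (-(c' * N * θ ^ 2)) := Real.exp_pos _
    calc Real.exp (-(mN N * θ ^ 2 / 20)) + C * Real.exp (-(c * N)) * 1 ≤
        Real.exp 2 * Real.exp (-(c' * N * θ ^ 2)) + C * Real.exp (-(c' * N * θ ^ 2)) * 1 := by gcongr
      _ = (Real.exp 2 + C) * Real.exp (-(c' * N * θ ^ 2)) := by ring
      _ ≤ C' * Real.exp (-(c' * N * θ ^ 2)) := by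
        apply mul_le_mul_of_nonneg_right _ hY0.le
        rw [hC']
        have : 0 < 2 / c := by positivity
        linarith
  · intro q hq r
    have hq1 : (1 : ℝ) ≤ q := by exact_mod_cast hq
    have hq0 : (0 : ℝ) < q := by linarith
    have hq2 : (1 : ℝ) ≤ (q : ℝ) ^ 2 := one_le_pow₀ hq1
    set g : ℤ → ℝ := fun x : ℤ => (if (q : ℤ) ∣ x - (r : ℤ) then (1 : ℝ) else 0) - 1 / q with hg
    have hg1 : ∀ x, |g x| ≤ 1 := by
      intro x
      have h1 : 0 ≤ 1 / (q : ℝ) := by positivity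
      have h2 : 1 / (q : ℝ) ≤ 1 := by rw [div_le_one hq0]; exact hq1
      rw [hg]
      simp only
      rw [abs_le]
      split_ifs <;> constructor <;> linarith
    have h1 := hE g (Real.exp (-(2 * mN N / (q : ℝ) ^ 2))) 1 hg1 (res_class (mN N) q hq r)
    have e1 : me N (fun f => F f * if area (2 * N) f ≡ r [MOD q] then 1 else 0) - me N F / q =
        me N (fun f => F f * g (area (2 * N) f : ℤ)) := by
      rw [me_F N hN, me_eq CONV_proof hN, me_eq CONV_proof hN, div_div, mul_comm _ (q : ℝ),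
        ← div_div, ← sub_div, Finset.sum_div, ← Finset.sum_sub_distrib]
      congr 1
      refine Finset.sum_congr rfl fun w hw => ?_
      rw [← ar_eq hN hw, hg]
      simp only
      have e2 : (ar w ≡ r [MOD q]) ↔ (q : ℤ) ∣ (ar w : ℤ) - (r : ℤ) := by
        constructor
        · intro h; exact Nat.modEq_iff_dvd.mp h.symm
        · intro h; exact (Nat.modEq_iff_dvd.mpr h).symm
      by_cases h2 : ar w ≡ r [MOD q]
      · rw [if_pos h2, if_pos (e2.1 h2)]
        ring
      · rw [if_neg h2, if_neg (fun h' => h2 (e2.2 h'))]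
        ring
    rw [e1]
    refine h1.trans ?_
    have h2 : Real.exp (-(2 * mN N / (q : ℝ) ^ 2)) ≤
        Real.exp 2 * Real.exp (-(c' * N / (q : ℝ) ^ 2)) := by
      rw [← Real.exp_add]
      apply Real.exp_le_exp.2
      have h3 : 2 - (2 * (mN N : ℝ) / (q : ℝ) ^ 2 + 2 / (q : ℝ) ^ 2) ≤
          2 - (c' * N / (q : ℝ) ^ 2) := by
        apply sub_le_sub_left
        rw [← add_div]
        apply div_le_div_of_nonneg_right _ (by positivity)
        have : c' * N ≤ 1 / 20000000 * N := by gcongr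
        linarith
      have h4 : 2 / (q : ℝ) ^ 2 ≤ 2 := by
        rw [div_le_iff₀ (by positivity)]
        linarith
      linarith
    have h3 : Real.exp (-(c * N)) ≤ Real.exp (-(c' * N / (q : ℝ) ^ 2)) := by
      apply Real.exp_le_exp.2
      have h5 : c' * N / (q : ℝ) ^ 2 ≤ c' * N := div_le_self (by positivity) hq2
      have h6 : c' * N ≤ c / 10 * N := by gcongr
      have h7 : 0 ≤ c * N := by positivity
      linarith
    have hY0 : 0 < Real.exp (-(c' * N / (q : ℝ) ^ 2)) := Real.exp_pos _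
    calc Real.exp (-(2 * mN N / (q : ℝ) ^ 2)) + C * Real.exp (-(c * N)) * 1 ≤
        Real.exp 2 * Real.exp (-(c' * N / (q : ℝ) ^ 2)) +
          C * Real.exp (-(c' * N / (q : ℝ) ^ 2)) * 1 := by gcongr
      _ = (Real.exp 2 + C) * Real.exp (-(c' * N / (q : ℝ) ^ 2)) := by ring
      _ ≤ C' * Real.exp (-(c' * N / (q : ℝ) ^ 2)) := by
        apply mul_le_mul_of_nonneg_right _ hY0.le
        rw [hC']
        have : 0 < 2 / c := by positivity
        linarith
  · intro k a
    set δ : ℤ → ℝ := fun x => if x = 0 then 1 else 0 with hδ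
    set H : ℤ → ℝ := fun x => if 0 < x then 1 else 0 with hH
    have hHδ : Dop H = δ := by
      funext x
      rw [hH, hδ]
      unfold Dop
      simp only
      split_ifs <;> first | omega | norm_num
    have e1 : (fun a : ℤ => me N (fun f => F f * if (area (2 * N) f : ℤ) = a then 1 else 0)) =
        fun a : ℤ => ∑ w ∈ KP (2 * N - 1),
          (F (lp (2 * N) w) / ((KP (2 * N - 1)).card : ℝ)) * δ ((ar w : ℤ) - a) := by
      funext a
      rw [me_eq CONV_proof hN, Finset.sum_div]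
      refine Finset.sum_congr rfl fun w hw => ?_
      rw [← ar_eq hN hw, hδ]
      simp only
      by_cases h1 : (ar w : ℤ) = a
      · rw [if_pos h1, if_pos (by omega)]
        ring
      · rw [if_neg h1, if_neg (by omega)]
        ring
    rw [e1, Dop_sum]
    beta_reduce
    have e2 : ∑ w ∈ KP (2 * N - 1), Dop^[k] (fun a : ℤ =>
          (F (lp (2 * N) w) / ((KP (2 * N - 1)).card : ℝ)) * δ ((ar w : ℤ) - a)) a =
        (-1) ^ k * me N (fun f => F f *
          Dop^[k + 1] (fun x => H (x - a - k)) (area (2 * N) f : ℤ)) := by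
      rw [me_F N hN, mul_div_assoc', Finset.mul_sum, Finset.sum_div]
      refine Finset.sum_congr rfl fun w hw => ?_
      rw [Dop_smul]
      have e3 := Dop_refl δ (ar w : ℤ) k a
      simp only
      rw [e3]
      have e4 : ∀ (n : ℕ) (u : ℤ → ℝ) (b : ℤ), Dop^[n] (fun x => u (x - b)) = fun x => Dop^[n] u (x - b) := by
        intro n u b
        induction n with
        | zero => rfl
        | succ n ih =>
          rw [Function.iterate_succ_apply', ih]
          funext x
          rw [Function.iterate_succ_apply']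
          have : x + 1 - b = x - b + 1 := by ring
          show Dop^[n] u (x + 1 - b) - Dop^[n] u (x - b) =
            Dop^[n] u (x - b + 1) - Dop^[n] u (x - b)
          rw [this]
      have e5 : (fun x => H (x - a - k)) = fun x => H (x - (a + k)) := by
        funext x
        congr 1
        ring
      rw [e5, e4 (k + 1) H (a + k)]
      simp only
      rw [Function.iterate_succ_apply, hHδ]
      have e6 : (ar w : ℤ) - a - k = ar w - (a + k) := by ring
      rw [e6]
      ring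
    rw [e2, abs_mul, abs_pow, abs_neg, abs_one, one_pow, one_mul]
    have h1 := hdiff (k + 1) (fun x => H (x - a - k)) (fun x => by
      rw [hH]
      simp only
      split_ifs <;> simp)
    push_cast at h1
    exact h1

end

end Pool.Agent.T6.H92.SP
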