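import Pool.Agent.T6.H92.SP.Pow

/-!
# Averaging over independent flips

A system of partial involutions `s w i`, `i ∈ I w`, each carried by a unit cell of the plane, such
that involutions carried by cells without common vertex do not interact.
-/

set_option autoImplicit false

namespace Pool.Agent.T6.H92.SP

open Finset
open scoped Classical

noncomputable section

/-- the average of `g` and its shift -/
def Bop (g : ℤ → ℝ) : ℤ → ℝ := fun x => (g x + g (x + 1)) / 2

/-- systems of flips -/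
structure Flips {α : Type} (Ω : Finset α) (I : α → Finset ℕ) (s : α → ℕ → α)
    (cl : α → ℕ → ℤ × ℤ) (A : α → ℤ) : Prop where
  mem : ∀ w ∈ Ω, ∀ i ∈ I w, s w i ∈ Ω
  self : ∀ w ∈ Ω, ∀ i ∈ I w, i ∈ I (s w i)
  inv : ∀ w ∈ Ω, ∀ i ∈ I w, s (s w i) i = w
  cself : ∀ w ∈ Ω, ∀ i ∈ I w, cl (s w i) i = cl w i
  cinj : ∀ w ∈ Ω, ∀ i ∈ I w, ∀ j ∈ I w, cl w i = cl w j → i = j
  pm : ∀ w ∈ Ω, ∀ i ∈ I w, A (s w i) = A w + 1 ∨ A (s w i) = A w - 1
  far : ∀ w ∈ Ω, ∀ i ∈ I w, ∀ j ∈ I w, ¬ touch (cl w i) (cl w j) →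
    j ∈ I (s w i) ∧ cl (s w i) j = cl w j ∧ A (s (s w i) j) - A (s w i) = A (s w j) - A w

variable {α : Type} (I : α → Finset ℕ) (s : α → ℕ → α) (cl : α → ℕ → ℤ × ℤ) (A : α → ℤ)

/-- the cell `c` carries a flip of `w` -/
def Act (w : α) (c : ℤ × ℤ) : Prop := ∃ i ∈ I w, cl w i = c

/-- the flip at the cell `c` -/
def tau (c : ℤ × ℤ) (w : α) : α := if h : Act I cl w c then s w h.choose else w

/-- the change of `A` under the flip at `c` -/
def sgn (c : ℤ × ℤ) (w : α) : ℤ := A (tau I s cl c w) - A w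

variable {I s cl A} {Ω : Finset α}

theorem tau_eq (h : Flips Ω I s cl A) {w : α} (hw : w ∈ Ω) {i : ℕ} (hi : i ∈ I w) :
    tau I s cl (cl w i) w = s w i := by
  have ha : Act I cl w (cl w i) := ⟨i, hi, rfl⟩
  unfold tau
  rw [dif_pos ha]
  have h1 := ha.choose_spec
  rw [h.cinj w hw ha.choose h1.1 i hi h1.2]

theorem tau_none {w : α} {c : ℤ × ℤ} (h : ¬ Act I cl w c) : tau I s cl c w = w := by
  unfold tau
  rw [dif_neg h]

theorem tau_mem (h : Flips Ω I s cl A) {w : α} (hw : w ∈ Ω) (c : ℤ × ℤ) :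
    tau I s cl c w ∈ Ω := by
  by_cases ha : Act I cl w c
  · obtain ⟨i, hi, rfl⟩ := ha
    rw [tau_eq h hw hi]
    exact h.mem w hw i hi
  · rw [tau_none ha]
    exact hw

theorem tau_tau (h : Flips Ω I s cl A) {w : α} (hw : w ∈ Ω) (c : ℤ × ℤ) :
    tau I s cl c (tau I s cl c w) = w := by
  by_cases ha : Act I cl w c
  · obtain ⟨i, hi, rfl⟩ := ha
    rw [tau_eq h hw hi]
    conv_lhs => rw [← h.cself w hw i hi]
    rw [tau_eq h (h.mem w hw i hi) (h.self w hw i hi), h.inv w hw i hi]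
  · rw [tau_none ha, tau_none ha]

theorem act_self (h : Flips Ω I s cl A) {w : α} (hw : w ∈ Ω) (c : ℤ × ℤ)
    (ha : Act I cl w c) : Act I cl (tau I s cl c w) c := by
  obtain ⟨i, hi, rfl⟩ := ha
  rw [tau_eq h hw hi]
  exact ⟨i, h.self w hw i hi, h.cself w hw i hi⟩

theorem act_far (h : Flips Ω I s cl A) {w : α} (hw : w ∈ Ω) {c d : ℤ × ℤ}
    (hcd : ¬ touch c d) (ha : Act I cl w d) : Act I cl (tau I s cl c w) d := by
  by_cases hc : Act I cl w c
  · obtain ⟨i, hi, rfl⟩ := hc
    obtain ⟨j, hj, rfl⟩ := ha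
    rw [tau_eq h hw hi]
    obtain ⟨h1, h2, _⟩ := h.far w hw i hi j hj hcd
    exact ⟨j, h1, h2⟩
  · rw [tau_none hc]
    exact ha

theorem act_far_iff (h : Flips Ω I s cl A) {w : α} (hw : w ∈ Ω) {c d : ℤ × ℤ}
    (hcd : ¬ touch c d) : Act I cl (tau I s cl c w) d ↔ Act I cl w d := by
  constructor
  · intro ha
    have := act_far h (tau_mem h hw c) hcd ha
    rwa [tau_tau h hw c] at this
  · exact act_far h hw hcd

theorem sgn_pm (h : Flips Ω I s cl A) {w : α} (hw : w ∈ Ω) {c : ℤ × ℤ}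
    (ha : Act I cl w c) : sgn I s cl A c w = 1 ∨ sgn I s cl A c w = -1 := by
  obtain ⟨i, hi, rfl⟩ := ha
  unfold sgn
  rw [tau_eq h hw hi]
  rcases h.pm w hw i hi with h1 | h1
  · left; rw [h1]; ring
  · right; rw [h1]; ring

theorem sgn_far (h : Flips Ω I s cl A) {w : α} (hw : w ∈ Ω) {c d : ℤ × ℤ}
    (hcd : ¬ touch c d) : sgn I s cl A d (tau I s cl c w) = sgn I s cl A d w := by
  by_cases hc : Act I cl w c
  · by_cases hd : Act I cl w d
    · obtain ⟨i, hi, rfl⟩ := hc
      obtain ⟨j, hj, rfl⟩ := hd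
      unfold sgn
      rw [tau_eq h hw hi, tau_eq h hw hj]
      obtain ⟨h1, h2, h3⟩ := h.far w hw i hi j hj hcd
      have h4 : tau I s cl (cl w j) (s w i) = s (s w i) j := by
        rw [← h2]
        exact tau_eq h (h.mem w hw i hi) h1
      rw [h4]
      exact h3
    · have hd' : ¬ Act I cl (tau I s cl c w) d := fun h' => hd ((act_far_iff h hw hcd).1 h')
      unfold sgn
      rw [tau_none hd', tau_none hd]
      ring
  · rw [tau_none hc]

/-- the number of the active cells in `R` -/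
def mm (I : α → Finset ℕ) (cl : α → ℕ → ℤ × ℤ) (R : Finset (ℤ × ℤ)) (w : α) : ℕ :=
  (R.filter (fun c => Act I cl w c)).card

/-- the number of the active cells in `R` whose flip lowers `A` -/
def ng (I : α → Finset ℕ) (s : α → ℕ → α) (cl : α → ℕ → ℤ × ℤ) (A : α → ℤ)
    (R : Finset (ℤ × ℤ)) (w : α) : ℕ :=
  (R.filter (fun c => Act I cl w c ∧ sgn I s cl A c w = -1)).card

theorem sum_tau (h : Flips Ω I s cl A) (c : ℤ × ℤ) (Φ : α → ℝ) :
    ∑ w ∈ Ω, Φ (tau I s cl c w) = ∑ w ∈ Ω, Φ w := by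
  refine Finset.sum_nbij' (fun w => tau I s cl c w) (fun w => tau I s cl c w) ?_ ?_ ?_ ?_ ?_
  · exact fun w hw => tau_mem h hw c
  · exact fun w hw => tau_mem h hw c
  · exact fun w hw => tau_tau h hw c
  · exact fun w hw => tau_tau h hw c
  · exact fun w _ => rfl

theorem mm_insert (w : α) {R : Finset (ℤ × ℤ)} {c : ℤ × ℤ} (hc : c ∉ R) :
    mm I cl (insert c R) w = mm I cl R w + if Act I cl w c then 1 else 0 := by
  unfold mm
  rw [Finset.filter_insert]
  split_ifs with h
  · rw [Finset.card_insert_of_notMem (fun h' => hc (Finset.mem_filter.1 h').1)]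
  · rfl

theorem ng_insert (w : α) {R : Finset (ℤ × ℤ)} {c : ℤ × ℤ} (hc : c ∉ R) :
    ng I s cl A (insert c R) w = ng I s cl A R w +
      if Act I cl w c ∧ sgn I s cl A c w = -1 then 1 else 0 := by
  unfold ng
  rw [Finset.filter_insert]
  split_ifs with h
  · rw [Finset.card_insert_of_notMem (fun h' => hc (Finset.mem_filter.1 h').1)]
  · rfl

/-- **The averaging identity.** -/
theorem average (h : Flips Ω I s cl A) (F : α → ℝ)
    (hF : ∀ w ∈ Ω, ∀ i ∈ I w, F (s w i) = F w) (g : ℤ → ℝ) (R : Finset (ℤ × ℤ)) :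
    (∀ c ∈ R, ∀ d ∈ R, c ≠ d → ¬ touch c d) →
    ∑ w ∈ Ω, F w * g (A w) =
      ∑ w ∈ Ω, F w * (Bop^[mm I cl R w] g) (A w - ng I s cl A R w) := by
  induction R using Finset.induction_on with
  | empty =>
    intro _
    refine Finset.sum_congr rfl fun w _ => ?_
    have h1 : mm I cl ∅ w = 0 := by unfold mm; simp
    have h2 : ng I s cl A ∅ w = 0 := by unfold ng; simp
    rw [h1, h2]
    simp
  | insert c R hc ih =>
    intro hsep
    rw [ih (fun d hd e he => hsep d (Finset.mem_insert_of_mem hd) e (Finset.mem_insert_of_mem he))]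
    have hfar : ∀ d ∈ R, ¬ touch c d := fun d hd =>
      hsep c (Finset.mem_insert_self c R) d (Finset.mem_insert_of_mem hd) (fun h' => hc (h' ▸ hd))
    set Φ : α → ℝ := fun w => F w * (Bop^[mm I cl R w] g) (A w - ng I s cl A R w) with hΦ
    have e1 : ∑ w ∈ Ω, Φ w = ∑ w ∈ Ω, (Φ w + Φ (tau I s cl c w)) / 2 := by
      rw [← Finset.sum_div, Finset.sum_add_distrib, sum_tau h c Φ]
      ring
    rw [e1]
    refine Finset.sum_congr rfl fun w hw => ?_
    have hm : mm I cl R (tau I s cl c w) = mm I cl R w := by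
      unfold mm
      congr 1
      refine Finset.filter_congr fun d hd => ?_
      exact act_far_iff h hw (hfar d hd)
    have hn : ng I s cl A R (tau I s cl c w) = ng I s cl A R w := by
      unfold ng
      congr 1
      refine Finset.filter_congr fun d hd => ?_
      rw [act_far_iff h hw (hfar d hd), sgn_far h hw (hfar d hd)]
    rw [mm_insert w hc, ng_insert w hc]
    by_cases ha : Act I cl w c
    · have hFw : F (tau I s cl c w) = F w := by
        obtain ⟨i, hi, rfl⟩ := ha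
        rw [tau_eq h hw hi]
        exact hF w hw i hi
      have hA : A (tau I s cl c w) = A w + sgn I s cl A c w := by unfold sgn; ring
      rw [if_pos ha, Function.iterate_succ', Function.comp_apply]
      simp only [hΦ]
      rw [hFw, hm, hn, hA]
      rcases sgn_pm h hw ha with h1 | h1
      · rw [if_neg (by rw [h1]; rintro ⟨_, h2⟩; norm_num at h2), h1]
        unfold Bop
        simp only [Nat.cast_add, Nat.cast_zero, add_zero]
        have e2 : A w - (ng I s cl A R w : ℤ) + 1 = A w + 1 - ng I s cl A R w := by ring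
        rw [e2]
        ring
      · rw [if_pos ⟨ha, h1⟩, h1]
        unfold Bop
        simp only [Nat.cast_add, Nat.cast_one]
        have e2 : A w - ((ng I s cl A R w : ℤ) + 1) = A w + -1 - ng I s cl A R w := by ring
        have e3 : A w + -1 - (ng I s cl A R w : ℤ) + 1 = A w - ng I s cl A R w := by ring
        rw [e2, e3]
        ring
    · rw [if_neg ha, if_neg (fun h' => ha h'.1)]
      simp only [hΦ]
      rw [tau_none ha]
      simp only [Nat.cast_add, Nat.cast_zero, add_zero]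
      ring

end

end Pool.Agent.T6.H92.SP
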